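import Mathlib

/-!
# Tensor patching: matrix representations, tensor products, isomorphisms
-/

set_option autoImplicit false

open Matrix
open scoped Kronecker

namespace Pool.Agent.H66.TP

universe u v

variable {F : Type u} [Field F] {G : Type v} [Group G]
variable {α β γ δ : Type} [Fintype α] [Fintype β] [Fintype γ] [Fintype δ]
variable [DecidableEq α] [DecidableEq β] [DecidableEq γ] [DecidableEq δ]

/-- tensor product of matrix representations -/
def kr (R : G →* Matrix α α F) (S : G →* Matrix β β F) : G →* Matrix (α × β) (α × β) F where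
  toFun g := R g ⊗ₖ S g
  map_one' := by rw [map_one, map_one, one_kronecker_one]
  map_mul' g h := by rw [map_mul, map_mul, mul_kronecker_mul]

@[simp] lemma kr_apply (R : G →* Matrix α α F) (S : G →* Matrix β β F) (g : G) :
    kr R S g = R g ⊗ₖ S g := rfl

/-- isomorphism of matrix representations -/
def Iso (R : G →* Matrix α α F) (S : G →* Matrix β β F) : Prop :=
  ∃ (P : Matrix β α F) (Q : Matrix α β F), P * Q = 1 ∧ Q * P = 1 ∧ ∀ g, P * R g = S g * P

omit [Fintype γ] [DecidableEq γ] [Fintype δ] [DecidableEq δ] in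
lemma Iso.refl (R : G →* Matrix α α F) : Iso R R := ⟨1, 1, by simp, by simp, fun g => by simp⟩

lemma Iso.symm {R : G →* Matrix α α F} {S : G →* Matrix β β F} (h : Iso R S) : Iso S R := by
  obtain ⟨P, Q, h1, h2, h3⟩ := h
  refine ⟨Q, P, h2, h1, fun g => ?_⟩
  calc Q * S g = Q * S g * (P * Q) := by rw [h1, Matrix.mul_one]
    _ = Q * (S g * P) * Q := by simp only [Matrix.mul_assoc]
    _ = Q * (P * R g) * Q := by rw [h3]
    _ = (Q * P) * R g * Q := by simp only [Matrix.mul_assoc]
    _ = R g * Q := by rw [h2, Matrix.one_mul]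

lemma Iso.trans {R : G →* Matrix α α F} {S : G →* Matrix β β F} {T : G →* Matrix γ γ F}
    (h : Iso R S) (h' : Iso S T) : Iso R T := by
  obtain ⟨P, Q, h1, h2, h3⟩ := h
  obtain ⟨P', Q', h1', h2', h3'⟩ := h'
  refine ⟨P' * P, Q * Q', ?_, ?_, fun g => ?_⟩
  · calc P' * P * (Q * Q') = P' * (P * Q) * Q' := by simp only [Matrix.mul_assoc]
      _ = 1 := by rw [h1, Matrix.mul_one, h1']
  · calc Q * Q' * (P' * P) = Q * (Q' * P') * P := by simp only [Matrix.mul_assoc]
      _ = 1 := by rw [h2', Matrix.mul_one, h2]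
  · rw [Matrix.mul_assoc, h3, ← Matrix.mul_assoc, h3', Matrix.mul_assoc]

lemma Iso.kr {R : G →* Matrix α α F} {R' : G →* Matrix β β F} {S : G →* Matrix γ γ F}
    {S' : G →* Matrix δ δ F} (h : Iso R R') (h' : Iso S S') : Iso (kr R S) (kr R' S') := by
  obtain ⟨P, Q, h1, h2, h3⟩ := h
  obtain ⟨P', Q', h1', h2', h3'⟩ := h'
  refine ⟨P ⊗ₖ P', Q ⊗ₖ Q', ?_, ?_, fun g => ?_⟩
  · rw [← mul_kronecker_mul, h1, h1', one_kronecker_one]
  · rw [← mul_kronecker_mul, h2, h2', one_kronecker_one]
  · rw [kr_apply, kr_apply, ← mul_kronecker_mul, ← mul_kronecker_mul, h3, h3']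

/-- renaming the index type -/
lemma iso_of_equiv {R : G →* Matrix α α F} {S : G →* Matrix β β F} (e : α ≃ β)
    (h : ∀ g a b, S g (e a) (e b) = R g a b) : Iso R S := by
  have hR : ∀ g, R g = (S g).submatrix e e := fun g => by
    ext a b
    exact (h g a b).symm
  refine ⟨(1 : Matrix β β F).submatrix id e, (1 : Matrix β β F).submatrix e id, ?_, ?_, fun g => ?_⟩
  · rw [submatrix_mul_equiv, Matrix.one_mul, submatrix_id_id]
  · have h1 := submatrix_mul_equiv (1 : Matrix β β F) (1 : Matrix β β F) e (Equiv.refl β) e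
    rw [Equiv.coe_refl] at h1
    rw [h1, Matrix.one_mul, submatrix_one_equiv]
  · rw [hR g, submatrix_mul_equiv, Matrix.one_mul]
    have h1 := submatrix_mul_equiv (S g) (1 : Matrix β β F) id (Equiv.refl β) e
    rw [Equiv.coe_refl, submatrix_id_id, Matrix.mul_one] at h1
    rw [h1]

lemma kr_comm (R : G →* Matrix α α F) (S : G →* Matrix β β F) : Iso (kr R S) (kr S R) :=
  iso_of_equiv (Equiv.prodComm α β) fun g a b => by
    simp [kroneckerMap_apply, mul_comm]

lemma kr_assoc (R : G →* Matrix α α F) (S : G →* Matrix β β F) (T : G →* Matrix γ γ F) :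
    Iso (kr (kr R S) T) (kr R (kr S T)) :=
  iso_of_equiv (Equiv.prodAssoc α β γ) fun g a b => by
    simp [kroneckerMap_apply, mul_assoc]

/-- `(R ⊗ S) ⊗ T ≅ (R ⊗ T) ⊗ S` -/
lemma kr_swap (R : G →* Matrix α α F) (S : G →* Matrix β β F) (T : G →* Matrix γ γ F) :
    Iso (kr (kr R S) T) (kr (kr R T) S) :=
  (kr_assoc R S T).trans (((Iso.refl R).kr (kr_comm S T)).trans (kr_assoc R T S).symm)

end Pool.Agent.H66.TP
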