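import Pool.Agent.H66.TP.Main

/-!
# Tensor patching: two criteria for general position
-/

set_option autoImplicit false

open Matrix
open scoped Kronecker

namespace Pool.Agent.H66.TP

universe u v

variable {F : Type u} [Field F] {G : Type v} [Group G]
variable {β γ : Type} [Fintype β] [Fintype γ] [DecidableEq β] [DecidableEq γ]

/-- only scalars commute with `S` -/
def Schur (S : G →* Matrix γ γ F) : Prop :=
  ∀ M : Matrix γ γ F, (∀ g, M * S g = S g * M) → ∃ c : F, M = c • (1 : Matrix γ γ F)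

/-- an invariant functional vanishes on the trace zero matrices -/
lemma Schur.functional {S : G →* Matrix γ γ F} (h : Schur S) (τ : Matrix γ γ F →ₗ[F] F)
    (hτ : ∀ g Z, τ (S g * Z * S g⁻¹) = τ Z) (Z : Matrix γ γ F) (hZ : Z.trace = 0) : τ Z = 0 := by
  let M : Matrix γ γ F := of fun c c' => τ (single c' c 1)
  have hM : ∀ c c', M c c' = τ (single c' c 1) := fun _ _ => rfl
  have h1 : ∀ Z, τ Z = (M * Z).trace := by
    intro Z
    conv_lhs => rw [matrix_eq_sum_single Z]
    simp only [map_sum]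
    rw [trace, Finset.sum_comm]
    refine Finset.sum_congr rfl fun c _ => ?_
    rw [diag_apply, mul_apply]
    refine Finset.sum_congr rfl fun c' _ => ?_
    have h2 : single c' c (Z c' c) = Z c' c • single c' c (1 : F) := by
      rw [smul_single, smul_eq_mul, mul_one]
    rw [h2, map_smul, smul_eq_mul, hM, mul_comm]
  have h2 : ∀ (A B : Matrix γ γ F), (∀ Z, (A * Z).trace = (B * Z).trace) → A = B := by
    intro A B hAB
    ext c c'
    have h3 := hAB (single c' c 1)
    have h4 : ∀ C : Matrix γ γ F, (C * single c' c 1).trace = C c c' := by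
      intro C
      rw [trace, Finset.sum_eq_single c]
      · rw [diag_apply, mul_single_apply_same, mul_one]
      · intro d _ hd
        rw [diag_apply, mul_single_apply_of_ne _ _ _ _ _ hd]
      · intro hh; exact absurd (Finset.mem_univ _) hh
    rw [h4, h4] at h3
    exact h3
  obtain ⟨c, hc⟩ := h M (fun g => by
    have h3 : S g⁻¹ * M * S g = M := by
      apply h2
      intro Z
      have h4 := hτ g Z
      rw [h1, h1] at h4
      rw [← h4]
      calc (S g⁻¹ * M * S g * Z).trace = (S g⁻¹ * (M * S g * Z)).trace := by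
            simp only [Matrix.mul_assoc]
        _ = (M * S g * Z * S g⁻¹).trace := by rw [Matrix.trace_mul_comm]
        _ = _ := by simp only [Matrix.mul_assoc]
    calc M * S g = (S g * S g⁻¹) * (M * S g) := by rw [mul_inv_eq_one, Matrix.one_mul]
      _ = S g * (S g⁻¹ * M * S g) := by simp only [Matrix.mul_assoc]
      _ = S g * M := by rw [h3])
  rw [h1, hc, Matrix.smul_mul, Matrix.one_mul, trace_smul, hZ, smul_zero]

/-- **First criterion**: for every finite set `J` of indices there is a member `k` such that only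
scalars commute with `S k` on the common kernel of the members in `J`. -/
theorem gp_of_kernels {ι : Type*} {m : ι → ℕ} {S : ∀ i, G →* Matrix (Fin (m i)) (Fin (m i)) F}
    (h : ∀ J : Finset ι, ∃ k, ∀ M : Matrix (Fin (m k)) (Fin (m k)) F,
      (∀ g, (∀ j ∈ J, S j g = 1) → M * S k g = S k g * M) →
        ∃ c : F, M = c • (1 : Matrix (Fin (m k)) (Fin (m k)) F)) :
    GP S := by
  classical
  intro X _ _ _ A
  let XJ : Finset ι → Submodule F X := fun J =>
    { carrier := {x | ∀ g, (∀ j ∈ J, S j g = 1) → A g x = x}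
      add_mem' := fun {x y} hx hy g hg => by rw [map_add, hx g hg, hy g hg]
      zero_mem' := fun g _ => map_zero _
      smul_mem' := fun c x hx g hg => by rw [map_smul, hx g hg] }
  have hXJ : ∀ J x, x ∈ XJ J ↔ ∀ g, (∀ j ∈ J, S j g = 1) → A g x = x := fun _ _ => Iff.rfl
  obtain ⟨J, hJ⟩ : ∃ J, ∀ J', Module.finrank F (XJ J') ≤ Module.finrank F (XJ J) := by
    let s : Set ℕ := Set.range fun J => Module.finrank F (XJ J)
    have hs : s.Nonempty := ⟨_, ∅, rfl⟩
    have hb : BddAbove s := by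
      refine ⟨Module.finrank F X, ?_⟩
      rintro _ ⟨J, rfl⟩
      exact Submodule.finrank_le _
    obtain ⟨J, hJ⟩ := Nat.sSup_mem hs hb
    refine ⟨J, fun J' => ?_⟩
    simp only at hJ
    rw [hJ]
    exact le_csSup hb ⟨J', rfl⟩
  obtain ⟨k, hk⟩ := h J
  refine ⟨k, ?_⟩
  intro T hT Z hZ
  -- the common kernel of the members in `J`
  let HJ : Subgroup G :=
    { carrier := {g | ∀ j ∈ J, S j g = 1}
      one_mem' := fun j _ => map_one _
      mul_mem' := fun {a b} ha hb j hj => by
        rw [map_mul, ha j hj, hb j hj, Matrix.one_mul]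
      inv_mem' := fun {a} ha j hj => by
        have h2 := inv_mul_eq_one (S j) a
        rwa [ha j hj, Matrix.mul_one] at h2 }
  have key : ∀ x, (∀ g, S k g = 1 → A g x = x) → ∀ g ∈ HJ, A g x = x := by
    intro x hx g hg
    have h1 : XJ J ≤ XJ (insert k J) := by
      intro y hy g hg
      exact hy g fun j hj => hg j (Finset.mem_insert_of_mem hj)
    have h2 : XJ J = XJ (insert k J) := Submodule.eq_of_le_of_finrank_le h1 (hJ _)
    have h3 : x ∈ XJ J := by
      rw [h2]
      intro g hg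
      exact hx g (hg k (Finset.mem_insert_self k J))
    exact h3 g hg
  have h1 : ∀ Z, ∀ g ∈ HJ, A g (T Z) = T Z := by
    intro Z
    apply key
    intro g hg
    have hg' : S k g⁻¹ = 1 := by
      have h2 := inv_mul_eq_one (S k) g
      rwa [hg, Matrix.mul_one] at h2
    rw [← hT, hg, hg', Matrix.one_mul, Matrix.mul_one]
  have hk2 : Schur ((S k).comp HJ.subtype) := by
    intro M hM
    exact hk M fun g hg => hM ⟨g, hg⟩
  rw [← Module.forall_dual_apply_eq_zero_iff F]
  intro ξ
  exact hk2.functional (ξ ∘ₗ T) (fun g Z => by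
    have h2 := hT g Z
    have h3 := h1 Z g g.2
    rw [LinearMap.comp_apply, LinearMap.comp_apply]
    change ξ (T (S k g * Z * S k (g : G)⁻¹)) = ξ (T Z)
    rw [h2, h3]) Z hZ

/-- the trace zero matrices -/
def sl (γ : Type) (F : Type u) [Field F] [Fintype γ] [DecidableEq γ] :
    Submodule F (Matrix γ γ F) where
  carrier := {Z | Z.trace = 0}
  add_mem' {Z Z'} h h' := by
    change (Z + Z').trace = 0
    rw [trace_add, show Z.trace = 0 from h, show Z'.trace = 0 from h', add_zero]
  zero_mem' := trace_zero _ _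
  smul_mem' c Z h := by
    change (c • Z).trace = 0
    rw [trace_smul, show Z.trace = 0 from h, smul_zero]

lemma mem_sl {Z : Matrix γ γ F} : Z ∈ sl γ F ↔ Z.trace = 0 := Iff.rfl

lemma sl_conj (S : G →* Matrix γ γ F) (g : G) {Z : Matrix γ γ F} (hZ : Z ∈ sl γ F) :
    S g * Z * S g⁻¹ ∈ sl γ F := by
  rw [mem_sl, Matrix.trace_mul_comm, ← Matrix.mul_assoc, inv_mul_eq_one, Matrix.one_mul]
  exact hZ

/-- the adjoint representation of `S` on the trace zero matrices is irreducible -/
def AdIrred (S : G →* Matrix γ γ F) : Prop :=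
  ∀ P : Submodule F (Matrix γ γ F), P ≤ sl γ F → (∀ g, ∀ Z ∈ P, S g * Z * S g⁻¹ ∈ P) →
    P = ⊥ ∨ P = sl γ F

/-- the adjoint representations of `S` and `S'` on the trace zero matrices are isomorphic -/
def AdIso (S : G →* Matrix γ γ F) (S' : G →* Matrix β β F) : Prop :=
  ∃ e : sl γ F ≃ₗ[F] sl β F, ∀ g (Z : sl γ F),
    (e ⟨S g * (Z : Matrix γ γ F) * S g⁻¹, sl_conj S g Z.2⟩ : Matrix β β F) =
      S' g * (e Z : Matrix β β F) * S' g⁻¹

/-- **Second criterion**: the adjoint representations of infinitely many members on trace zero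
matrices are irreducible and pairwise not isomorphic. -/
theorem gp_of_adjoint {ι : Type*} {m : ι → ℕ} {S : ∀ i, G →* Matrix (Fin (m i)) (Fin (m i)) F}
    (I : Set ι) (hI : I.Infinite) (hirr : ∀ i ∈ I, AdIrred (S i))
    (hne : ∀ i ∈ I, ∀ j ∈ I, i ≠ j → ¬ AdIso (S i) (S j)) : GP S := by
  classical
  intro X _ _ _ A
  by_contra hcon
  push Not at hcon
  have h0 : ∀ k, ∃ T : Matrix (Fin (m k)) (Fin (m k)) F →ₗ[F] X,
      (∀ g Z, T (S k g * Z * S k g⁻¹) = A g (T Z)) ∧ ∃ Z, Z.trace = 0 ∧ T Z ≠ 0 := by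
    intro k
    have h1 := hcon k
    unfold Disj at h1
    push Not at h1
    obtain ⟨T, hT, Z, hZ, hTZ⟩ := h1
    exact ⟨T, hT, Z, hZ, hTZ⟩
  choose T hT Z₀ hZ₀ hTZ₀ using h0
  -- `T k` is injective on trace zero matrices
  have hinj : ∀ k ∈ I, ∀ Z, Z.trace = 0 → T k Z = 0 → Z = 0 := by
    intro k hk Z hZ hTZ
    rcases hirr k hk (sl _ F ⊓ LinearMap.ker (T k)) inf_le_left (by
      rintro g Z ⟨h1, h2⟩
      refine ⟨sl_conj (S k) g h1, ?_⟩
      have h3 : T k Z = 0 := h2
      change T k (S k g * Z * S k g⁻¹) = 0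
      rw [hT, h3, map_zero]) with h1 | h1
    · have h2 : Z ∈ sl (Fin (m k)) F ⊓ LinearMap.ker (T k) := ⟨hZ, hTZ⟩
      rw [h1] at h2
      exact h2
    · exfalso
      have h2 : Z₀ k ∈ sl (Fin (m k)) F := hZ₀ k
      rw [← h1] at h2
      exact hTZ₀ k h2.2
  -- relations among the `T k`, supported in the finite set `t`
  -- a nonzero relation with minimal support
  obtain ⟨s, hsI, hsc⟩ := hI.exists_subset_card_eq (Module.finrank F X + 1)
  -- a nonzero relation
  have hex : ∃ x : s → F, x ≠ 0 ∧ ∑ k : s, x k • T k (Z₀ k) = 0 := by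
    let L : (s → F) →ₗ[F] X := Fintype.linearCombination F fun k : s => T k (Z₀ k)
    have h1 : LinearMap.ker L ≠ ⊥ := by
      apply LinearMap.ker_ne_bot_of_finrank_lt
      rw [Module.finrank_fintype_fun_eq_card, Fintype.card_coe, hsc]
      exact Nat.lt_succ_self _
    obtain ⟨x, hx, hx0⟩ := Submodule.exists_mem_ne_zero_of_ne_bot h1
    refine ⟨x, hx0, ?_⟩
    rw [LinearMap.mem_ker, Fintype.linearCombination_apply] at hx
    exact hx
  let P : Finset s → Prop := fun t => ∃ Z : ∀ k : s, sl (Fin (m (k : ι))) F, Z ≠ 0 ∧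
    (∀ k, k ∉ t → Z k = 0) ∧ ∑ k : s, T k (Z k : Matrix (Fin (m (k : ι))) (Fin (m (k : ι))) F) = 0
  have hP0 : P Finset.univ := by
    obtain ⟨x, hx, hx'⟩ := hex
    refine ⟨fun k => x k • ⟨Z₀ k, hZ₀ k⟩, ?_, fun k hk => absurd (Finset.mem_univ k) hk, ?_⟩
    · intro h0
      apply hx
      funext k
      have h1 := congrFun h0 k
      have h2 : x k • Z₀ k = 0 := congrArg Subtype.val h1
      rcases smul_eq_zero.mp h2 with h3 | h3
      · exact h3
      · exfalso
        apply hTZ₀ k
        rw [h3, map_zero]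
    · rw [← hx']
      refine Finset.sum_congr rfl fun k _ => ?_
      change T k (x k • Z₀ k) = _
      rw [map_smul]
  obtain ⟨t, ht, htmin⟩ : ∃ t, P t ∧ ∀ t', P t' → t.card ≤ t'.card := by
    have h1 : ∃ n, ∃ t : Finset s, P t ∧ t.card = n := ⟨_, Finset.univ, hP0, rfl⟩
    obtain ⟨t, ht, htn⟩ := Nat.find_spec h1
    refine ⟨t, ht, fun t' ht' => ?_⟩
    rw [htn]
    exact Nat.find_min' h1 ⟨t', ht', rfl⟩
  let Rel : Submodule F (∀ k : s, sl (Fin (m (k : ι))) F) :=
    { carrier := {Z | (∀ k, k ∉ t → Z k = 0) ∧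
        ∑ k : s, T k (Z k : Matrix (Fin (m (k : ι))) (Fin (m (k : ι))) F) = 0}
      add_mem' := fun {Z Z'} h h' => by
        refine ⟨fun k hk => by rw [Pi.add_apply, h.1 k hk, h'.1 k hk, add_zero], ?_⟩
        simp only [Pi.add_apply, Submodule.coe_add, map_add, Finset.sum_add_distrib]
        rw [h.2, h'.2, add_zero]
      zero_mem' := ⟨fun k _ => rfl, by simp⟩
      smul_mem' := fun c Z h => by
        refine ⟨fun k hk => by rw [Pi.smul_apply, h.1 k hk, smul_zero], ?_⟩
        simp only [Pi.smul_apply, Submodule.coe_smul, map_smul]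
        rw [← Finset.smul_sum, h.2, smul_zero] }
  have hRel : ∀ Z, Z ∈ Rel ↔ (∀ k, k ∉ t → Z k = 0) ∧
        ∑ k : s, T k (Z k : Matrix (Fin (m (k : ι))) (Fin (m (k : ι))) F) = 0 := fun _ => Iff.rfl
  let ga : G → (∀ k : s, sl (Fin (m (k : ι))) F) → (∀ k : s, sl (Fin (m (k : ι))) F) :=
    fun g Z k => ⟨S k g * (Z k : Matrix _ _ F) * S k g⁻¹, sl_conj (S k) g (Z k).2⟩
  have hga : ∀ g Z, Z ∈ Rel → ga g Z ∈ Rel := by
    intro g Z hZ
    refine ⟨fun k hk => ?_, ?_⟩
    · apply Subtype.ext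
      change S k g * (Z k : Matrix _ _ F) * S k g⁻¹ = 0
      rw [hZ.1 k hk]
      change S k g * (0 : Matrix _ _ F) * S k g⁻¹ = 0
      rw [Matrix.mul_zero, Matrix.zero_mul]
    · have h1 : ∀ k : s, T k (ga g Z k : Matrix (Fin (m (k : ι))) (Fin (m (k : ι))) F) =
          A g (T k (Z k : Matrix (Fin (m (k : ι))) (Fin (m (k : ι))) F)) := fun k => hT k g _
      rw [Finset.sum_congr rfl fun k _ => h1 k, ← map_sum, hZ.2, map_zero]
  let π : ∀ k : s, Rel →ₗ[F] sl (Fin (m (k : ι))) F := fun k =>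
    (LinearMap.proj k) ∘ₗ Rel.subtype
  have hπ : ∀ k Z, π k Z = (Z : ∀ k : s, sl (Fin (m (k : ι))) F) k := fun _ _ => rfl
  have hπinj : ∀ k ∈ t, Function.Injective (π k) := by
    intro k hk
    rw [injective_iff_map_eq_zero]
    intro Z hZ
    by_contra hZ0
    have h1 : P (t.erase k) := by
      refine ⟨Z, fun h => hZ0 (Subtype.ext h), fun l hl => ?_, Z.2.2⟩
      by_cases hlk : l = k
      · subst hlk
        exact hZ
      · exact Z.2.1 l fun hlt => hl (Finset.mem_erase.mpr ⟨hlk, hlt⟩)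
    have h2 := htmin _ h1
    rw [Finset.card_erase_of_mem hk] at h2
    have h3 : 0 < t.card := Finset.card_pos.mpr ⟨k, hk⟩
    omega
  obtain ⟨Z, hZ0, hZt, hZs⟩ := ht
  have hZR : Z ∈ Rel := ⟨hZt, hZs⟩
  have hπsurj : ∀ k ∈ t, Function.Surjective (π k) := by
    intro k hk
    have h1 : (LinearMap.range (π k)).map (sl (Fin (m (k : ι))) F).subtype =
        sl (Fin (m (k : ι))) F := by
      rcases hirr k (hsI k.2) ((LinearMap.range (π k)).map (sl (Fin (m (k : ι))) F).subtype)
        (Submodule.map_subtype_le _ _) (by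
          rintro g _ ⟨_, ⟨Y, rfl⟩, rfl⟩
          exact ⟨_, ⟨⟨ga g Y, hga g Y Y.2⟩, rfl⟩, rfl⟩) with h1 | h1
      · exfalso
        apply hZ0
        have h2 : π k ⟨Z, hZR⟩ = 0 := by
          have h3 : ((sl (Fin (m (k : ι))) F).subtype (π k ⟨Z, hZR⟩)) ∈
              (LinearMap.range (π k)).map (sl (Fin (m (k : ι))) F).subtype :=
            ⟨_, ⟨_, rfl⟩, rfl⟩
          rw [h1, Submodule.mem_bot] at h3
          exact Subtype.ext h3
        have h4 := hπinj k hk (h2.trans (map_zero _).symm)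
        exact congrArg Subtype.val h4
      · exact h1
    intro Y
    have h2 : (Y : Matrix (Fin (m (k : ι))) (Fin (m (k : ι))) F) ∈
        (LinearMap.range (π k)).map (sl (Fin (m (k : ι))) F).subtype := by
      rw [h1]; exact Y.2
    obtain ⟨_, ⟨Q, rfl⟩, hQ⟩ := h2
    exact ⟨Q, Subtype.ext hQ⟩
  obtain ⟨k, hk⟩ : ∃ k, Z k ≠ 0 := by
    by_contra hall
    push Not at hall
    exact hZ0 (funext hall)
  have hkt : k ∈ t := by
    by_contra h
    exact hk (hZt k h)
  obtain ⟨l, hlt, hlk⟩ : ∃ l ∈ t, l ≠ k := by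
    by_contra hall
    push Not at hall
    apply hk
    apply Subtype.ext
    apply hinj k (hsI k.2) _ (Z k).2
    rw [Finset.sum_eq_single k] at hZs
    · exact hZs
    · intro l _ hl
      have : Z l = 0 := by
        by_cases h : l ∈ t
        · exact absurd (hall l h) hl
        · exact hZt l h
      rw [this]
      exact map_zero _
    · intro hh; exact absurd (Finset.mem_univ _) hh
  let ek := LinearEquiv.ofBijective (π k) ⟨hπinj k hkt, hπsurj k hkt⟩
  let el := LinearEquiv.ofBijective (π l) ⟨hπinj l hlt, hπsurj l hlt⟩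
  refine hne k (hsI k.2) l (hsI l.2) (fun h => hlk (Subtype.ext h.symm)) ⟨ek.symm.trans el, ?_⟩
  intro g Y
  obtain ⟨Q, rfl⟩ := ek.surjective Y
  have h1 : (⟨S k g * ((ek Q : sl (Fin (m (k : ι))) F) : Matrix _ _ F) * S k g⁻¹,
      sl_conj (S k) g (ek Q).2⟩ : sl (Fin (m (k : ι))) F) = ek ⟨ga g Q, hga g Q Q.2⟩ := rfl
  rw [h1, LinearEquiv.trans_apply, LinearEquiv.trans_apply, LinearEquiv.symm_apply_apply,
    LinearEquiv.symm_apply_apply]
  rfl

end Pool.Agent.H66.TP
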