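import Pool.Agent.H66.TP.Basic

/-!
# Tensor patching: disjointness, cancellation, matrices commuting with `1 ⊗ Z`
-/

set_option autoImplicit false

open Matrix
open scoped Kronecker

namespace Pool.Agent.H66.TP

universe u v

variable {F : Type u} [Field F] {G : Type v} [Group G]
variable {α β γ δ : Type} [Fintype α] [Fintype β] [Fintype γ] [Fintype δ]
variable [DecidableEq α] [DecidableEq β] [DecidableEq γ] [DecidableEq δ]

/-- The matrix representation `S` is disjoint from the representation `A`: every equivariant linear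
map from the matrices (with the adjoint action of `S`) to `A` is zero on matrices of trace zero. -/
def Disj {X : Type u} [AddCommGroup X] [Module F X] (A : G →* (X →ₗ[F] X))
    (S : G →* Matrix γ γ F) : Prop :=
  ∀ T : Matrix γ γ F →ₗ[F] X, (∀ g Z, T (S g * Z * S g⁻¹) = A g (T Z)) →
    ∀ Z, Z.trace = 0 → T Z = 0

lemma Disj.mono {X Y : Type u} [AddCommGroup X] [Module F X] [AddCommGroup Y] [Module F Y]
    {A : G →* (X →ₗ[F] X)} {B : G →* (Y →ₗ[F] Y)} {S : G →* Matrix γ γ F} (h : Disj A S)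
    (i : Y →ₗ[F] X) (hi : Function.Injective i) (he : ∀ g y, i (B g y) = A g (i y)) :
    Disj B S := by
  intro T hT Z hZ
  apply hi
  rw [map_zero]
  refine h (i ∘ₗ T) (fun g Z => ?_) Z hZ
  rw [LinearMap.comp_apply, hT, he, LinearMap.comp_apply]

section entries

/-- partial trace against `Z` -/
def ptr (Φ : Matrix (β × γ) (α × γ) F) (Z : Matrix γ γ F) : Matrix β α F :=
  of fun y x => ∑ c, ∑ c', Φ (y, c) (x, c') * Z c' c

omit [Fintype α] [Fintype β] [DecidableEq α] [DecidableEq β] [DecidableEq γ] in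
lemma ptr_apply (Φ : Matrix (β × γ) (α × γ) F) (Z : Matrix γ γ F) (y : β) (x : α) :
    ptr Φ Z y x = ∑ c, ∑ c', Φ (y, c) (x, c') * Z c' c := rfl

omit [Fintype α] [Fintype β] [DecidableEq α] [DecidableEq β] in
lemma ptr_single (Φ : Matrix (β × γ) (α × γ) F) (c c' : γ) (y : β) (x : α) :
    ptr Φ (single c' c 1) y x = Φ (y, c) (x, c') := by
  rw [ptr_apply, Finset.sum_eq_single c]
  · rw [Finset.sum_eq_single c']
    · simp
    · intro b _ hb
      rw [single_apply, if_neg (fun h => hb h.1.symm), mul_zero]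
    · intro h; exact absurd (Finset.mem_univ _) h
  · intro b _ hb
    refine Finset.sum_eq_zero fun b' _ => ?_
    rw [single_apply, if_neg (fun h => hb h.2.symm), mul_zero]
  · intro h; exact absurd (Finset.mem_univ _) h

omit [Fintype α] [Fintype β] [DecidableEq α] [DecidableEq β] in
/-- a matrix all of whose partial traces against trace zero matrices vanish is `f ⊗ 1` -/
lemma exists_kron_one (Φ : Matrix (β × γ) (α × γ) F)
    (h : ∀ Z : Matrix γ γ F, Z.trace = 0 → ptr Φ Z = 0) :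
    ∃ f : Matrix β α F, Φ = f ⊗ₖ (1 : Matrix γ γ F) := by
  by_cases hne : Nonempty γ
  · obtain ⟨c₀⟩ := hne
    have h1 : ∀ c c' : γ, c ≠ c' → ∀ y x, Φ (y, c) (x, c') = 0 := by
      intro c c' hc y x
      rw [← ptr_single Φ c c' y x, h _ (by rw [trace_single_eq_of_ne]; exact Ne.symm hc),
        Matrix.zero_apply]
    have h2 : ∀ c : γ, ∀ y x, Φ (y, c) (x, c) = Φ (y, c₀) (x, c₀) := by
      intro c y x
      have h3 := h (single c c 1 - single c₀ c₀ 1) (by
        rw [trace_sub, trace_single_eq_same, trace_single_eq_same, sub_self])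
      have h4 : ptr Φ (single c c 1 - single c₀ c₀ 1) y x =
          ptr Φ (single c c 1) y x - ptr Φ (single c₀ c₀ 1) y x := by
        simp only [ptr_apply, Matrix.sub_apply, mul_sub, Finset.sum_sub_distrib]
      rw [h3, ptr_single, ptr_single, Matrix.zero_apply] at h4
      exact sub_eq_zero.mp h4.symm
    refine ⟨of fun y x => Φ (y, c₀) (x, c₀), ?_⟩
    ext ⟨y, c⟩ ⟨x, c'⟩
    rw [kroneckerMap_apply, of_apply]
    by_cases hc : c = c'
    · subst hc
      rw [one_apply_eq, mul_one]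
      exact h2 c y x
    · rw [one_apply_ne hc, mul_zero]
      exact h1 c c' hc y x
  · refine ⟨0, ?_⟩
    ext ⟨y, c⟩ ⟨x, c'⟩
    exact absurd ⟨c⟩ hne

omit [DecidableEq α] [DecidableEq β] in
/-- a matrix commuting with all `1 ⊗ Z` is `f ⊗ 1` -/
lemma exists_kron_one_of_commute [DecidableEq α] [DecidableEq β] (Φ : Matrix (β × γ) (α × γ) F)
    (h : ∀ Z : Matrix γ γ F, Φ * ((1 : Matrix α α F) ⊗ₖ Z) = ((1 : Matrix β β F) ⊗ₖ Z) * Φ) :
    ∃ f : Matrix β α F, Φ = f ⊗ₖ (1 : Matrix γ γ F) := by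
  have key : ∀ (a b c d : γ) (y : β) (x : α),
      Φ (y, a) (x, c) * (if d = b then 1 else 0) = (if a = c then 1 else 0) * Φ (y, d) (x, b) := by
    intro a b c d y x
    have h1 := congrFun (congrFun (h (single c d 1)) (y, a)) (x, b)
    rw [mul_apply, mul_apply, Fintype.sum_prod_type, Fintype.sum_prod_type] at h1
    simp only [kroneckerMap_apply] at h1
    rw [Finset.sum_eq_single x, Finset.sum_eq_single c, Finset.sum_eq_single y,
      Finset.sum_eq_single d] at h1
    · simpa [single, one_apply, eq_comm] using h1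
    · intro e _ he
      simp [single, Ne.symm he]
    · intro hh; exact absurd (Finset.mem_univ _) hh
    · intro e _ he
      refine Finset.sum_eq_zero fun e' _ => ?_
      rw [one_apply_ne (Ne.symm he)]
      simp
    · intro hh; exact absurd (Finset.mem_univ _) hh
    · intro e _ he
      simp [single, Ne.symm he]
    · intro hh; exact absurd (Finset.mem_univ _) hh
    · intro e _ he
      refine Finset.sum_eq_zero fun e' _ => ?_
      rw [one_apply_ne he]
      simp
    · intro hh; exact absurd (Finset.mem_univ _) hh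
  by_cases hne : Nonempty γ
  · obtain ⟨c₀⟩ := hne
    refine ⟨of fun y x => Φ (y, c₀) (x, c₀), ?_⟩
    ext ⟨y, c⟩ ⟨x, c'⟩
    rw [kroneckerMap_apply, of_apply]
    have h1 := key c c₀ c' c₀ y x
    rw [if_pos rfl, mul_one] at h1
    rw [h1, one_apply]
    ring
  · refine ⟨0, ?_⟩
    ext ⟨y, c⟩ ⟨x, c'⟩
    exact absurd ⟨c⟩ hne

omit [Fintype α] [Fintype β] [DecidableEq α] [DecidableEq β] in
lemma kron_one_injective [Nonempty γ] {f f' : Matrix β α F}
    (h : f ⊗ₖ (1 : Matrix γ γ F) = f' ⊗ₖ (1 : Matrix γ γ F)) : f = f' := by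
  obtain ⟨c₀⟩ := ‹Nonempty γ›
  ext y x
  have h1 := congrFun (congrFun h (y, c₀)) (x, c₀)
  simpa [kroneckerMap_apply] using h1

omit [Fintype α] [Fintype β] [DecidableEq α] [DecidableEq β] [DecidableEq γ] in
lemma kron_eq_zero {f : Matrix β α F} {M : Matrix γ γ F} (hM : M ≠ 0) (h : f ⊗ₖ M = 0) :
    f = 0 := by
  have h2 : ∃ c c', M c c' ≠ 0 := by
    by_contra hcon
    push Not at hcon
    exact hM (by ext c c'; exact hcon c c')
  obtain ⟨c, c', hc⟩ := h2
  ext y x
  have h1 := congrFun (congrFun h (y, c)) (x, c')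
  rw [kroneckerMap_apply] at h1
  exact (mul_eq_zero.mp h1).resolve_right hc

/-- the partial trace and multiplication -/
lemma ptr_mul (f : Matrix (β × γ) (α × γ) F) (X' : Matrix α α F) (Y : Matrix β β F)
    (S S' : Matrix γ γ F) (Z : Matrix γ γ F) :
    ptr ((Y ⊗ₖ S) * f * (X' ⊗ₖ S')) Z = Y * ptr f (S' * Z * S) * X' := by
  -- `ptr Φ Z` as a sum of blocks
  have e1 : ∀ (Ψ : Matrix (β × γ) (α × γ) F) (Z : Matrix γ γ F) (y : β) (x : α),
      ptr Ψ Z y x = ∑ c, (Ψ * ((1 : Matrix α α F) ⊗ₖ Z)) (y, c) (x, c) := by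
    intro Ψ Z y x
    rw [ptr_apply]
    refine Finset.sum_congr rfl fun c _ => ?_
    rw [mul_apply, Fintype.sum_prod_type, Finset.sum_eq_single x]
    · refine Finset.sum_congr rfl fun c' _ => ?_
      rw [kroneckerMap_apply, one_apply_eq, one_mul]
    · intro e _ he
      refine Finset.sum_eq_zero fun e' _ => ?_
      rw [kroneckerMap_apply, one_apply_ne he, zero_mul, mul_zero]
    · intro hh; exact absurd (Finset.mem_univ _) hh
  -- cyclicity
  have e2 : ∀ (Ψ : Matrix (β × γ) (α × γ) F) (U : Matrix γ γ F) (y : β) (x : α),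
      ∑ c, (Ψ * ((1 : Matrix α α F) ⊗ₖ U)) (y, c) (x, c) =
      ∑ c, (((1 : Matrix β β F) ⊗ₖ U) * Ψ) (y, c) (x, c) := by
    intro Ψ U y x
    rw [← e1, ptr_apply, Finset.sum_comm]
    refine Finset.sum_congr rfl fun c _ => ?_
    rw [mul_apply, Fintype.sum_prod_type, Finset.sum_eq_single y]
    · refine Finset.sum_congr rfl fun c' _ => ?_
      rw [kroneckerMap_apply, one_apply_eq, one_mul, mul_comm]
    · intro e _ he
      refine Finset.sum_eq_zero fun e' _ => ?_
      rw [kroneckerMap_apply, one_apply_ne (Ne.symm he), zero_mul, zero_mul]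
    · intro hh; exact absurd (Finset.mem_univ _) hh
  -- left and right multiplication
  have e3 : ∀ (Ψ : Matrix (β × γ) (α × γ) F) (y : β) (x : α),
      ∑ c, ((Y ⊗ₖ (1 : Matrix γ γ F)) * Ψ * (X' ⊗ₖ (1 : Matrix γ γ F))) (y, c) (x, c) =
      (Y * (of fun y x => ∑ c, Ψ (y, c) (x, c) : Matrix β α F) * X') y x := by
    intro Ψ y x
    have e4 : ∀ c, ((Y ⊗ₖ (1 : Matrix γ γ F)) * Ψ * (X' ⊗ₖ (1 : Matrix γ γ F))) (y, c) (x, c) =
        ∑ a, (∑ b, Y y b * Ψ (b, c) (a, c)) * X' a x := by
      intro c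
      rw [mul_apply, Fintype.sum_prod_type]
      refine Finset.sum_congr rfl fun a _ => ?_
      rw [Finset.sum_eq_single c]
      · rw [kroneckerMap_apply, one_apply_eq, mul_one]
        congr 1
        rw [mul_apply, Fintype.sum_prod_type]
        refine Finset.sum_congr rfl fun b _ => ?_
        rw [Finset.sum_eq_single c]
        · rw [kroneckerMap_apply, one_apply_eq, mul_one]
        · intro e _ he
          rw [kroneckerMap_apply, one_apply_ne (Ne.symm he), mul_zero, zero_mul]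
        · intro hh; exact absurd (Finset.mem_univ _) hh
      · intro e _ he
        rw [kroneckerMap_apply, one_apply_ne he, mul_zero, mul_zero]
      · intro hh; exact absurd (Finset.mem_univ _) hh
    rw [Finset.sum_congr rfl fun c _ => e4 c, mul_apply, Finset.sum_comm]
    refine Finset.sum_congr rfl fun a _ => ?_
    rw [← Finset.sum_mul, mul_apply, Finset.sum_comm]
    congr 1
    refine Finset.sum_congr rfl fun b _ => ?_
    rw [of_apply, Finset.mul_sum]
  ext y x
  have h1 : (Y ⊗ₖ S) * f * (X' ⊗ₖ S') * ((1 : Matrix α α F) ⊗ₖ Z) =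
      (Y ⊗ₖ (1 : Matrix γ γ F)) * (((1 : Matrix β β F) ⊗ₖ S) *
        (f * ((1 : Matrix α α F) ⊗ₖ (S' * Z)))) * (X' ⊗ₖ (1 : Matrix γ γ F)) := by
    have h2 : (X' ⊗ₖ S') * ((1 : Matrix α α F) ⊗ₖ Z) =
        ((1 : Matrix α α F) ⊗ₖ (S' * Z)) * (X' ⊗ₖ (1 : Matrix γ γ F)) := by
      rw [← mul_kronecker_mul, ← mul_kronecker_mul, Matrix.mul_one, Matrix.mul_one, Matrix.one_mul]
    have h3 : Y ⊗ₖ S = (Y ⊗ₖ (1 : Matrix γ γ F)) * ((1 : Matrix β β F) ⊗ₖ S) := by
      rw [← mul_kronecker_mul, Matrix.mul_one, Matrix.one_mul]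
    rw [Matrix.mul_assoc _ (X' ⊗ₖ S'), h2, h3]
    simp only [Matrix.mul_assoc]
  rw [e1, h1, e3]
  have h4 : (of fun y x => ∑ c, (((1 : Matrix β β F) ⊗ₖ S) *
      (f * ((1 : Matrix α α F) ⊗ₖ (S' * Z)))) (y, c) (x, c) : Matrix β α F) =
      ptr f (S' * Z * S) := by
    ext y x
    rw [of_apply, ← e2, e1]
    refine Finset.sum_congr rfl fun c _ => ?_
    rw [Matrix.mul_assoc f, ← mul_kronecker_mul, Matrix.one_mul]
  rw [h4]

/-- the partial trace and conjugation -/
lemma ptr_conj (Φ : Matrix (β × γ) (α × γ) F) (X X' : Matrix α α F) (Y : Matrix β β F)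
    (S S' : Matrix γ γ F) (hX : X * X' = 1) (hS : S' * S = 1) (hS' : S * S' = 1)
    (hΦ : Φ * (X ⊗ₖ S) = (Y ⊗ₖ S) * Φ) (Z : Matrix γ γ F) :
    ptr Φ (S * Z * S') = Y * ptr Φ Z * X' := by
  have h1 : Φ = (Y ⊗ₖ S) * Φ * (X' ⊗ₖ S') := by
    rw [← hΦ, Matrix.mul_assoc, ← mul_kronecker_mul, hX, hS', one_kronecker_one, Matrix.mul_one]
  have h2 := ptr_mul Φ X' Y S S' (S * Z * S')
  rw [← h1] at h2
  rw [h2]
  have h3 : S' * (S * Z * S') * S = Z := by
    calc S' * (S * Z * S') * S = (S' * S) * Z * (S' * S) := by simp only [Matrix.mul_assoc]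
      _ = Z := by rw [hS, Matrix.one_mul, Matrix.mul_one]
  rw [h3]

/-- the representation on the homomorphisms -/
def hom (X : G →* Matrix α α F) (Y : G →* Matrix β β F) :
    G →* (Matrix β α F →ₗ[F] Matrix β α F) where
  toFun g :=
    { toFun := fun f => Y g * f * X g⁻¹
      map_add' := fun f f' => by rw [Matrix.mul_add, Matrix.add_mul]
      map_smul' := fun c f => by simp }
  map_one' := by
    ext1 f
    simp
  map_mul' g h := by
    ext1 f
    have h1 : (g * h)⁻¹ = h⁻¹ * g⁻¹ := by group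
    simp only [LinearMap.coe_mk, AddHom.coe_mk, Module.End.mul_apply, h1, map_mul,
      Matrix.mul_assoc]

@[simp] lemma hom_apply (X : G →* Matrix α α F) (Y : G →* Matrix β β F) (g : G)
    (f : Matrix β α F) : hom X Y g f = Y g * f * X g⁻¹ := rfl

lemma mul_inv_eq_one (X : G →* Matrix α α F) (g : G) : X g * X g⁻¹ = 1 := by
  rw [← map_mul, mul_inv_cancel, map_one]

lemma inv_mul_eq_one (X : G →* Matrix α α F) (g : G) : X g⁻¹ * X g = 1 := by
  rw [← map_mul, inv_mul_cancel, map_one]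

/-- an intertwiner between tensor products with a disjoint representation -/
lemma Disj.kron {X : G →* Matrix α α F} {Y : G →* Matrix β β F} {S : G →* Matrix γ γ F}
    (h : Disj (hom X Y) S) (Φ : Matrix (β × γ) (α × γ) F)
    (hΦ : ∀ g, Φ * kr X S g = kr Y S g * Φ) : ∃ f : Matrix β α F, Φ = f ⊗ₖ (1 : Matrix γ γ F) := by
  apply exists_kron_one
  let T : Matrix γ γ F →ₗ[F] Matrix β α F :=
    { toFun := ptr Φ
      map_add' := fun Z Z' => by
        ext y x
        simp only [ptr_apply, Matrix.add_apply, mul_add, Finset.sum_add_distrib]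
      map_smul' := fun c Z => by
        ext y x
        simp only [ptr_apply, Matrix.smul_apply, smul_eq_mul, RingHom.id_apply, Finset.mul_sum]
        exact Finset.sum_congr rfl fun _ _ => Finset.sum_congr rfl fun _ _ => by ring }
  intro Z hZ
  exact h T (fun g Z => ptr_conj Φ (X g) (X g⁻¹) (Y g) (S g) (S g⁻¹) (mul_inv_eq_one X g)
    (inv_mul_eq_one S g) (mul_inv_eq_one S g) (hΦ g) Z) Z hZ

/-- cancellation of a disjoint representation -/
theorem Disj.cancel [Nonempty γ] {X : G →* Matrix α α F} {Y : G →* Matrix β β F}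
    {S : G →* Matrix γ γ F} (h : Disj (hom X Y) S) (h' : Disj (hom Y X) S)
    (hi : Iso (kr X S) (kr Y S)) : Iso X Y := by
  obtain ⟨P, Q, h1, h2, h3⟩ := hi
  obtain ⟨f, hf⟩ := h.kron P h3
  have h4 : ∀ g, Q * kr Y S g = kr X S g * Q := fun g => by
    calc Q * kr Y S g = Q * kr Y S g * (P * Q) := by rw [h1, Matrix.mul_one]
      _ = Q * (kr Y S g * P) * Q := by simp only [Matrix.mul_assoc]
      _ = Q * (P * kr X S g) * Q := by rw [h3]
      _ = (Q * P) * kr X S g * Q := by simp only [Matrix.mul_assoc]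
      _ = kr X S g * Q := by rw [h2, Matrix.one_mul]
  obtain ⟨f', hf'⟩ := h'.kron Q h4
  refine ⟨f, f', ?_, ?_, fun g => ?_⟩
  · apply kron_one_injective (γ := γ)
    rw [one_kronecker_one, ← h1, hf, hf', ← mul_kronecker_mul, Matrix.one_mul]
  · apply kron_one_injective (γ := γ)
    rw [one_kronecker_one, ← h2, hf, hf', ← mul_kronecker_mul, Matrix.one_mul]
  · have h5 := h3 g
    rw [hf, kr_apply, kr_apply, ← mul_kronecker_mul, ← mul_kronecker_mul, Matrix.one_mul,
      Matrix.mul_one] at h5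
    have hS : S g ≠ 0 := by
      intro h0
      have h6 := mul_inv_eq_one S g
      rw [h0, Matrix.zero_mul] at h6
      exact zero_ne_one h6
    have h7 : (f * X g - Y g * f) ⊗ₖ S g = 0 := by
      rw [sub_eq_add_neg, add_kronecker, h5, ← add_kronecker, add_neg_cancel, zero_kronecker]
    exact sub_eq_zero.mp (kron_eq_zero hS h7)

end entries

end Pool.Agent.H66.TP
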