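import Pool.Agent.H66.TP.Morita

/-!
# Tensor patching: the factorisation from one general member
-/

set_option autoImplicit false

open Matrix
open scoped Kronecker

namespace Pool.Agent.H66.TP

universe u v

variable {F : Type u} [Field F] {G : Type v} [Group G]
variable {α α' β γ δ : Type} [Fintype α] [Fintype α'] [Fintype β] [Fintype γ] [Fintype δ]
variable [DecidableEq α] [DecidableEq α'] [DecidableEq β] [DecidableEq γ] [DecidableEq δ]

/-- the representation on linear maps -/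
def lin {X Y : Type u} [AddCommGroup X] [Module F X] [AddCommGroup Y] [Module F Y]
    (A : G →* (X →ₗ[F] X)) (B : G →* (Y →ₗ[F] Y)) : G →* ((X →ₗ[F] Y) →ₗ[F] (X →ₗ[F] Y)) where
  toFun g :=
    { toFun := fun f => B g ∘ₗ f ∘ₗ A g⁻¹
      map_add' := fun f f' => by
        refine LinearMap.ext fun x => ?_
        simp [map_add]
      map_smul' := fun c f => by
        refine LinearMap.ext fun x => ?_
        simp }
  map_one' := by
    refine LinearMap.ext fun f => LinearMap.ext fun x => ?_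
    simp
  map_mul' g h := by
    refine LinearMap.ext fun f => LinearMap.ext fun x => ?_
    have h1 : (g * h)⁻¹ = h⁻¹ * g⁻¹ := by group
    simp [h1, map_mul]

lemma lin_apply {X Y : Type u} [AddCommGroup X] [Module F X] [AddCommGroup Y] [Module F Y]
    (A : G →* (X →ₗ[F] X)) (B : G →* (Y →ₗ[F] Y)) (g : G) (f : X →ₗ[F] Y) (x : X) :
    lin A B g f x = B g (f (A g⁻¹ x)) := rfl

/-- the family of partial traces -/
def ptrL (f : Matrix (β × γ) (α × γ) F) : Matrix γ γ F →ₗ[F] Matrix β α F where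
  toFun Z := ptr f Z
  map_add' Z Z' := by
    ext y x
    simp only [ptr_apply, Matrix.add_apply, mul_add, Finset.sum_add_distrib]
  map_smul' c Z := by
    ext y x
    simp only [ptr_apply, Matrix.smul_apply, smul_eq_mul, RingHom.id_apply, Finset.mul_sum]
    exact Finset.sum_congr rfl fun _ _ => Finset.sum_congr rfl fun _ _ => by ring

omit [Fintype α] [Fintype β] [DecidableEq α] [DecidableEq β] [DecidableEq γ] in
lemma ptr_add (f f' : Matrix (β × γ) (α × γ) F) (Z : Matrix γ γ F) :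
    ptr (f + f') Z = ptr f Z + ptr f' Z := by
  ext y x
  simp only [ptr_apply, Matrix.add_apply, add_mul, Finset.sum_add_distrib]

omit [Fintype α] [Fintype β] [DecidableEq α] [DecidableEq β] [DecidableEq γ] in
lemma ptr_smul (c : F) (f : Matrix (β × γ) (α × γ) F) (Z : Matrix γ γ F) :
    ptr (c • f) Z = c • ptr f Z := by
  ext y x
  simp only [ptr_apply, Matrix.smul_apply, smul_eq_mul, Finset.mul_sum]
  exact Finset.sum_congr rfl fun _ _ => Finset.sum_congr rfl fun _ _ => by ring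

/-- **Factorisation.** -/
theorem factor [Nonempty β] [Nonempty γ] {V : G →* Matrix α α F} {W : G →* Matrix β β F}
    {V' : G →* Matrix α' α' F} {W' : G →* Matrix γ γ F} (hi : Iso (kr V W') (kr V' W))
    (hd : Disj (lin (hom W W) (hom V V)) W') :
    ∃ (n : ℕ) (U : G →* Matrix (Fin n) (Fin n) F), Iso (kr U W) V ∧ Iso (kr U W') V' ∧
      (∃ j : (Fin n → F) →ₗ[F] Matrix α β F, Function.Injective j ∧
        ∀ g x, j (U g *ᵥ x) = V g * j x * W g⁻¹) := by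
  obtain ⟨Φ, Ψ, hΦΨ, hΨΦ, hΦ⟩ := hi
  have hΨ : ∀ g, Ψ * kr V' W g = kr V W' g * Ψ := fun g => by
    calc Ψ * kr V' W g = Ψ * kr V' W g * (Φ * Ψ) := by rw [hΦΨ, Matrix.mul_one]
      _ = Ψ * (kr V' W g * Φ) * Ψ := by simp only [Matrix.mul_assoc]
      _ = Ψ * (Φ * kr V W' g) * Ψ := by rw [hΦ]
      _ = (Ψ * Φ) * kr V W' g * Ψ := by simp only [Matrix.mul_assoc]
      _ = kr V W' g * Ψ := by rw [hΨΦ, Matrix.one_mul]
  -- the action of the matrices of `W` on `V ⊗ W'`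
  let al : Matrix β β F → Matrix (α × γ) (α × γ) F := fun Z =>
    Ψ * ((1 : Matrix α' α' F) ⊗ₖ Z) * Φ
  have al_def : ∀ Z, al Z = Ψ * ((1 : Matrix α' α' F) ⊗ₖ Z) * Φ := fun _ => rfl
  have al_add : ∀ Z Z', al (Z + Z') = al Z + al Z' := fun Z Z' => by
    rw [al_def, kronecker_add, Matrix.mul_add, Matrix.add_mul]
  have al_smul : ∀ (c : F) Z, al (c • Z) = c • al Z := fun c Z => by
    rw [al_def, kronecker_smul, Matrix.mul_smul, Matrix.smul_mul]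
  have al_one : al 1 = 1 := by
    rw [al_def, one_kronecker_one, Matrix.mul_one, hΨΦ]
  have al_mul : ∀ Z Z', al (Z * Z') = al Z * al Z' := fun Z Z' => by
    have h1 : (1 : Matrix α' α' F) ⊗ₖ (Z * Z') =
        ((1 : Matrix α' α' F) ⊗ₖ Z) * ((1 : Matrix α' α' F) ⊗ₖ Z') := by
      rw [← mul_kronecker_mul, Matrix.one_mul]
    calc al (Z * Z') = Ψ * (((1 : Matrix α' α' F) ⊗ₖ Z) * ((1 : Matrix α' α' F) ⊗ₖ Z')) * Φ := by
          rw [al_def, h1]
      _ = Ψ * ((1 : Matrix α' α' F) ⊗ₖ Z) * ((Φ * Ψ) * ((1 : Matrix α' α' F) ⊗ₖ Z')) * Φ := by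
          rw [hΦΨ, Matrix.one_mul]; simp only [Matrix.mul_assoc]
      _ = al Z * al Z' := by rw [al_def, al_def]; simp only [Matrix.mul_assoc]
  have al_eq : ∀ g Z, (V g ⊗ₖ W' g) * al Z * (V g⁻¹ ⊗ₖ W' g⁻¹) = al (W g * Z * W g⁻¹) := by
    intro g Z
    have h1 : (V g ⊗ₖ W' g) * Ψ = Ψ * (V' g ⊗ₖ W g) := (hΨ g).symm
    have h2 : Φ * (V g⁻¹ ⊗ₖ W' g⁻¹) = (V' g⁻¹ ⊗ₖ W g⁻¹) * Φ := hΦ g⁻¹
    calc (V g ⊗ₖ W' g) * al Z * (V g⁻¹ ⊗ₖ W' g⁻¹)
        = ((V g ⊗ₖ W' g) * Ψ) * ((1 : Matrix α' α' F) ⊗ₖ Z) * (Φ * (V g⁻¹ ⊗ₖ W' g⁻¹)) := by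
          rw [al_def]; simp only [Matrix.mul_assoc]
      _ = Ψ * ((V' g ⊗ₖ W g) * ((1 : Matrix α' α' F) ⊗ₖ Z) * (V' g⁻¹ ⊗ₖ W g⁻¹)) * Φ := by
          rw [h1, h2]; simp only [Matrix.mul_assoc]
      _ = al (W g * Z * W g⁻¹) := by
          rw [← mul_kronecker_mul, ← mul_kronecker_mul, Matrix.mul_one, mul_inv_eq_one, al_def]
  -- the equivariant map
  let T : Matrix γ γ F →ₗ[F] (Matrix β β F →ₗ[F] Matrix α α F) :=
    LinearMap.mk₂ F (fun Y Z => ptr (al Z) Y)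
      (fun Y Y' Z => (ptrL (al Z)).map_add Y Y') (fun c Y Z => (ptrL (al Z)).map_smul c Y)
      (fun Y Z Z' => by rw [al_add, ptr_add]) (fun c Y Z => by rw [al_smul, ptr_smul])
  have hT : ∀ Y Z, T Y Z = ptr (al Z) Y := fun _ _ => rfl
  have hTe : ∀ g Y, T (W' g * Y * W' g⁻¹) = lin (hom W W) (hom V V) g (T Y) := by
    intro g Y
    refine LinearMap.ext fun Z => ?_
    rw [hT, lin_apply, hT, hom_apply, hom_apply]
    have h1 := al_eq g (W g⁻¹ * Z * W g⁻¹⁻¹)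
    have h2 : W g * (W g⁻¹ * Z * W g⁻¹⁻¹) * W g⁻¹ = Z := by
      rw [inv_inv]
      calc W g * (W g⁻¹ * Z * W g) * W g⁻¹ = (W g * W g⁻¹) * Z * (W g * W g⁻¹) := by
            simp only [Matrix.mul_assoc]
        _ = Z := by rw [mul_inv_eq_one, Matrix.one_mul, Matrix.mul_one]
    rw [h2] at h1
    rw [← h1, ptr_mul]
    have h3 : W' g⁻¹ * (W' g * Y * W' g⁻¹) * W' g = Y := by
      calc W' g⁻¹ * (W' g * Y * W' g⁻¹) * W' g = (W' g⁻¹ * W' g) * Y * (W' g⁻¹ * W' g) := by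
            simp only [Matrix.mul_assoc]
        _ = Y := by rw [inv_mul_eq_one, Matrix.one_mul, Matrix.mul_one]
    rw [h3]
  have hT0 := hd T hTe
  have hbe : ∀ Z, ∃ f : Matrix α α F, al Z = f ⊗ₖ (1 : Matrix γ γ F) := by
    intro Z
    apply exists_kron_one
    intro Y hY
    have h1 := congrArg (fun f => f Z) (hT0 Y hY)
    exact h1
  choose bf hbf using hbe
  let be : Matrix β β F →ₗ[F] Matrix α α F :=
    { toFun := bf
      map_add' := fun Z Z' => by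
        apply kron_one_injective (γ := γ)
        rw [← hbf, al_add, add_kronecker, hbf, hbf]
      map_smul' := fun c Z => by
        apply kron_one_injective (γ := γ)
        rw [← hbf, al_smul, RingHom.id_apply, smul_kronecker, hbf] }
  have hbe : ∀ Z, al Z = be Z ⊗ₖ (1 : Matrix γ γ F) := hbf
  obtain ⟨n, U, E, E', hE1, hE2, hVE, hbE, hj⟩ := morita (V := V) (W := W) be
    (by
      apply kron_one_injective (γ := γ)
      rw [← hbe, al_one, one_kronecker_one])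
    (fun Z Z' => by
      apply kron_one_injective (γ := γ)
      rw [← hbe, al_mul, hbe, hbe, ← mul_kronecker_mul, Matrix.one_mul])
    (fun g Z => by
      apply kron_one_injective (γ := γ)
      rw [← hbe, ← al_eq, hbe, ← mul_kronecker_mul, ← mul_kronecker_mul, Matrix.mul_one,
        mul_inv_eq_one])
  have hEi : Iso (kr U W) V := ⟨E, E', hE1, hE2, fun g => (hVE g).symm⟩
  refine ⟨n, U, hEi, ?_, hj⟩
  -- the second isomorphism
  have hΦbe : ∀ Z : Matrix β β F, Φ * (be Z ⊗ₖ (1 : Matrix γ γ F)) = ((1 : Matrix α' α' F) ⊗ₖ Z) * Φ := by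
    intro Z
    rw [← hbe, al_def]
    calc Φ * (Ψ * ((1 : Matrix α' α' F) ⊗ₖ Z) * Φ)
        = (Φ * Ψ) * (((1 : Matrix α' α' F) ⊗ₖ Z) * Φ) := by simp only [Matrix.mul_assoc]
      _ = _ := by rw [hΦΨ, Matrix.one_mul]
  -- the permutation of the factors
  let e : (Fin n × γ) × β ≃ (Fin n × β) × γ :=
    { toFun := fun p => ((p.1.1, p.2), p.1.2)
      invFun := fun p => ((p.1.1, p.2), p.1.2)
      left_inv := fun _ => rfl
      right_inv := fun _ => rfl }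
  let Ξ : Matrix (α' × β) ((Fin n × γ) × β) F := (Φ * (E ⊗ₖ (1 : Matrix γ γ F))).submatrix id e
  let Ξ' : Matrix ((Fin n × γ) × β) (α' × β) F := ((E' ⊗ₖ (1 : Matrix γ γ F)) * Ψ).submatrix e id
  have hΞ1 : Ξ * Ξ' = 1 := by
    have h1 : Ξ * Ξ' = ((Φ * (E ⊗ₖ (1 : Matrix γ γ F))) *
        ((E' ⊗ₖ (1 : Matrix γ γ F)) * Ψ)).submatrix id id :=
      submatrix_mul_equiv _ _ id e id
    rw [h1, submatrix_id_id]
    calc (Φ * (E ⊗ₖ (1 : Matrix γ γ F))) * ((E' ⊗ₖ (1 : Matrix γ γ F)) * Ψ)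
        = Φ * ((E ⊗ₖ (1 : Matrix γ γ F)) * (E' ⊗ₖ (1 : Matrix γ γ F))) * Ψ := by
          simp only [Matrix.mul_assoc]
      _ = 1 := by
          rw [← mul_kronecker_mul, hE1, Matrix.one_mul, one_kronecker_one, Matrix.mul_one, hΦΨ]
  have hΞ2 : Ξ' * Ξ = 1 := by
    have h1 : Ξ' * Ξ = (((E' ⊗ₖ (1 : Matrix γ γ F)) * Ψ) *
        (Φ * (E ⊗ₖ (1 : Matrix γ γ F)))).submatrix e e :=
      submatrix_mul_equiv _ _ e (Equiv.refl _) e
    rw [h1]
    have h2 : ((E' ⊗ₖ (1 : Matrix γ γ F)) * Ψ) * (Φ * (E ⊗ₖ (1 : Matrix γ γ F))) = 1 := by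
      calc ((E' ⊗ₖ (1 : Matrix γ γ F)) * Ψ) * (Φ * (E ⊗ₖ (1 : Matrix γ γ F)))
          = (E' ⊗ₖ (1 : Matrix γ γ F)) * (Ψ * Φ) * (E ⊗ₖ (1 : Matrix γ γ F)) := by
            simp only [Matrix.mul_assoc]
        _ = 1 := by
            rw [hΨΦ, Matrix.mul_one, ← mul_kronecker_mul, hE2, Matrix.one_mul, one_kronecker_one]
    rw [h2, submatrix_one_equiv]
  have hperm : ∀ (A : Matrix (Fin n) (Fin n) F) (B : Matrix β β F) (C : Matrix γ γ F),
      ((A ⊗ₖ C) ⊗ₖ B : Matrix ((Fin n × γ) × β) ((Fin n × γ) × β) F) =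
        ((A ⊗ₖ B) ⊗ₖ C).submatrix e e := by
    intro A B C
    ext ⟨⟨r, c⟩, b⟩ ⟨⟨r', c'⟩, b'⟩
    simp only [kroneckerMap_apply, submatrix_apply, e, Equiv.coe_fn_mk]
    ring
  have hΞZ : ∀ Z : Matrix β β F, Ξ * ((1 : Matrix (Fin n × γ) (Fin n × γ) F) ⊗ₖ Z) =
      ((1 : Matrix α' α' F) ⊗ₖ Z) * Ξ := by
    intro Z
    have h1 : (1 : Matrix (Fin n × γ) (Fin n × γ) F) ⊗ₖ Z =
        (((1 : Matrix (Fin n) (Fin n) F) ⊗ₖ Z) ⊗ₖ (1 : Matrix γ γ F)).submatrix e e := by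
      rw [← hperm, one_kronecker_one]
    have h2 : Ξ * ((1 : Matrix (Fin n × γ) (Fin n × γ) F) ⊗ₖ Z) =
        ((Φ * (E ⊗ₖ (1 : Matrix γ γ F))) *
          (((1 : Matrix (Fin n) (Fin n) F) ⊗ₖ Z) ⊗ₖ (1 : Matrix γ γ F))).submatrix id e := by
      rw [h1]
      exact submatrix_mul_equiv _ _ id e e
    have h3 : ((1 : Matrix α' α' F) ⊗ₖ Z) * Ξ =
        (((1 : Matrix α' α' F) ⊗ₖ Z) * (Φ * (E ⊗ₖ (1 : Matrix γ γ F)))).submatrix id e := by
      have h4 := submatrix_mul_equiv ((1 : Matrix α' α' F) ⊗ₖ Z) (Φ * (E ⊗ₖ (1 : Matrix γ γ F)))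
        id (Equiv.refl _) e
      rw [Equiv.coe_refl, submatrix_id_id] at h4
      exact h4
    rw [h2, h3]
    congr 1
    calc (Φ * (E ⊗ₖ (1 : Matrix γ γ F))) *
          (((1 : Matrix (Fin n) (Fin n) F) ⊗ₖ Z) ⊗ₖ (1 : Matrix γ γ F))
        = Φ * ((E * ((1 : Matrix (Fin n) (Fin n) F) ⊗ₖ Z)) ⊗ₖ (1 : Matrix γ γ F)) := by
          rw [Matrix.mul_assoc, ← mul_kronecker_mul, Matrix.one_mul]
      _ = (Φ * (be Z ⊗ₖ (1 : Matrix γ γ F))) * (E ⊗ₖ (1 : Matrix γ γ F)) := by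
          rw [← hbE, Matrix.mul_assoc, ← mul_kronecker_mul, Matrix.one_mul]
      _ = _ := by rw [hΦbe, Matrix.mul_assoc]
  have hΞZ' : ∀ Z : Matrix β β F, Ξ' * ((1 : Matrix α' α' F) ⊗ₖ Z) =
      ((1 : Matrix (Fin n × γ) (Fin n × γ) F) ⊗ₖ Z) * Ξ' := by
    intro Z
    calc Ξ' * ((1 : Matrix α' α' F) ⊗ₖ Z) = Ξ' * (((1 : Matrix α' α' F) ⊗ₖ Z) * Ξ) * Ξ' := by
          rw [Matrix.mul_assoc Ξ', Matrix.mul_assoc _ Ξ, hΞ1, Matrix.mul_one]
      _ = (Ξ' * Ξ) * (((1 : Matrix (Fin n × γ) (Fin n × γ) F) ⊗ₖ Z) * Ξ') := by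
          rw [← hΞZ]; simp only [Matrix.mul_assoc]
      _ = _ := by rw [hΞ2, Matrix.one_mul]
  obtain ⟨ψ, hψ⟩ := exists_kron_one_of_commute Ξ hΞZ
  obtain ⟨ψ', hψ'⟩ := exists_kron_one_of_commute Ξ' hΞZ'
  refine ⟨ψ, ψ', ?_, ?_, fun g => ?_⟩
  · apply kron_one_injective (γ := β)
    rw [one_kronecker_one, ← hΞ1, hψ, hψ', ← mul_kronecker_mul, Matrix.one_mul]
  · apply kron_one_injective (γ := β)
    rw [one_kronecker_one, ← hΞ2, hψ, hψ', ← mul_kronecker_mul, Matrix.one_mul]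
  · have h5 : Ξ * (kr U W' g ⊗ₖ W g) = (V' g ⊗ₖ W g) * Ξ := by
      have h1 : kr U W' g ⊗ₖ W g = ((U g ⊗ₖ W g) ⊗ₖ W' g).submatrix e e := hperm _ _ _
      have h2 : Ξ * (kr U W' g ⊗ₖ W g) = ((Φ * (E ⊗ₖ (1 : Matrix γ γ F))) *
            ((U g ⊗ₖ W g) ⊗ₖ W' g)).submatrix id e := by
        rw [h1]
        exact submatrix_mul_equiv _ _ id e e
      have h3 : (V' g ⊗ₖ W g) * Ξ =
          ((V' g ⊗ₖ W g) * (Φ * (E ⊗ₖ (1 : Matrix γ γ F)))).submatrix id e := by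
        have h4 := submatrix_mul_equiv (V' g ⊗ₖ W g) (Φ * (E ⊗ₖ (1 : Matrix γ γ F)))
          id (Equiv.refl _) e
        rw [Equiv.coe_refl, submatrix_id_id] at h4
        exact h4
      rw [h2, h3]
      congr 1
      have h6 : E * (U g ⊗ₖ W g) = V g * E := (hVE g).symm
      have h7 : (V' g ⊗ₖ W g) * Φ = Φ * (V g ⊗ₖ W' g) := (hΦ g).symm
      calc (Φ * (E ⊗ₖ (1 : Matrix γ γ F))) * ((U g ⊗ₖ W g) ⊗ₖ W' g)
          = Φ * ((V g * E) ⊗ₖ (W' g)) := by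
            rw [Matrix.mul_assoc, ← mul_kronecker_mul, Matrix.one_mul, h6]
        _ = Φ * (V g ⊗ₖ W' g) * (E ⊗ₖ (1 : Matrix γ γ F)) := by
            rw [Matrix.mul_assoc, ← mul_kronecker_mul, Matrix.mul_one]
        _ = _ := by rw [← h7, Matrix.mul_assoc]
    rw [hψ, ← mul_kronecker_mul, ← mul_kronecker_mul, Matrix.one_mul, Matrix.mul_one] at h5
    have hW : W g ≠ 0 := by
      intro h0
      have h6 := mul_inv_eq_one W g
      rw [h0, Matrix.zero_mul] at h6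
      exact zero_ne_one h6
    have h7 : (ψ * kr U W' g - V' g * ψ) ⊗ₖ W g = 0 := by
      rw [sub_eq_add_neg, add_kronecker, h5, ← add_kronecker, add_neg_cancel, zero_kronecker]
    exact sub_eq_zero.mp (kron_eq_zero hW h7)

end Pool.Agent.H66.TP
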