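import Mathlib

/-!
# Families of representations in general position: definitions used in the statement
-/

set_option autoImplicit false

open Matrix

namespace Pool.Agent.H66.TP

universe u v w

variable {F : Type u} [Field F] {G : Type v} [Group G]

/-- `s` is disjoint from the representation `A`: every linear map from the matrices of size `m`,
with the adjoint action `Z ↦ s(g) Z s(g)⁻¹`, to `A` which commutes with `G` is zero on the matrices
of trace zero. -/
def DisjointFrom {r m : ℕ} (A : G →* GL (Fin r) F) (s : G →* GL (Fin m) F) : Prop :=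
  ∀ T : Matrix (Fin m) (Fin m) F →ₗ[F] (Fin r → F),
    (∀ (g : G) (Z : Matrix (Fin m) (Fin m) F),
      T ((s g).val * Z * ((s g)⁻¹ : GL (Fin m) F).val) = (A g).val *ᵥ T Z) →
    ∀ Z : Matrix (Fin m) (Fin m) F, Z.trace = 0 → T Z = 0

/-- The matrices of trace zero. -/
def slm (m : ℕ) (F : Type u) [Field F] : Submodule F (Matrix (Fin m) (Fin m) F) :=
  LinearMap.ker (Matrix.traceLinearMap (Fin m) F F)

/-- The adjoint representation of `s` on the matrices of trace zero is irreducible (or zero): there
is no invariant subspace except `0` and all matrices of trace zero. -/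
def AdjointIrreducible {m : ℕ} (s : G →* GL (Fin m) F) : Prop :=
  ∀ P : Submodule F (Matrix (Fin m) (Fin m) F), P ≤ slm m F →
    (∀ g : G, ∀ Z ∈ P, (s g).val * Z * ((s g)⁻¹ : GL (Fin m) F).val ∈ P) → P = ⊥ ∨ P = slm m F

/-- The adjoint representations of `s` and `s'` on the matrices of trace zero are isomorphic. -/
def AdjointIsom {m m' : ℕ} (s : G →* GL (Fin m) F) (s' : G →* GL (Fin m') F) : Prop :=
  ∃ e : slm m F ≃ₗ[F] slm m' F, ∀ (g : G) (Z Y : slm m F),
    Y.val = (s g).val * Z.val * ((s g)⁻¹ : GL (Fin m) F).val →
    (e Y).val = (s' g).val * (e Z).val * ((s' g)⁻¹ : GL (Fin m') F).val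

variable {ι : Type w} {m : ι → ℕ}

/-- The family `s` is in general position if (a), (b) or (c) holds.
(a) For every finite dimensional representation `A` some member is disjoint from `A`.
(b) For every finite set `J` of indices there is a member `s k` such that only scalar matrices
commute with all `s k g`, `g` in the common kernel of the `s j`, `j ∈ J`.
(c) There are infinitely many `i` such that the adjoint representations of the `s i` on the matrices
of trace zero are irreducible and pairwise not isomorphic. -/
def GeneralPosition (s : ∀ i, G →* GL (Fin (m i)) F) : Prop :=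
  (∀ (r : ℕ) (A : G →* GL (Fin r) F), ∃ k, DisjointFrom A (s k)) ∨
  (∀ J : Finset ι, ∃ k, ∀ M : Matrix (Fin (m k)) (Fin (m k)) F,
      (∀ g : G, (∀ j ∈ J, s j g = 1) → M * (s k g).val = (s k g).val * M) →
        ∃ c : F, M = c • (1 : Matrix (Fin (m k)) (Fin (m k)) F)) ∨
  (∃ I : Set ι, I.Infinite ∧ (∀ i ∈ I, AdjointIrreducible (s i)) ∧
    ∀ i ∈ I, ∀ j ∈ I, i ≠ j → ¬ AdjointIsom (s i) (s j))

end Pool.Agent.H66.TP
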