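import Pool.Agent.H66.TP.Crit
import Pool.Agent.H66.TP.Pub
import Pool.Agent.H41.TP.Gal

/-!
# Tensor patching: from the abstract theorem to the statement
-/

set_option autoImplicit false

open Matrix
open scoped Kronecker Pointwise NumberField
open IsDedekindDomain Pool.Agent.H71.Patch Pool.Agent.H41.TP

namespace Pool.Agent.H66.TP

universe u v w

section abstract_

variable {F : Type u} [Field F] {G : Type v} [Group G]

/-- the matrix representation -/
def toM {n : ℕ} (R : G →* GL (Fin n) F) : G →* Matrix (Fin n) (Fin n) F :=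
  (Units.coeHom _).comp R

lemma toM_apply {n : ℕ} (R : G →* GL (Fin n) F) (g : G) :
    toM R g = (R g : Matrix (Fin n) (Fin n) F) := rfl

lemma toM_inv {n : ℕ} (R : G →* GL (Fin n) F) (g : G) :
    toM R g⁻¹ = (((R g)⁻¹ : GL (Fin n) F) : Matrix (Fin n) (Fin n) F) := by
  rw [toM_apply, map_inv]

/-- from matrices to invertible matrices -/
def toG {n : ℕ} (U : G →* Matrix (Fin n) (Fin n) F) : G →* GL (Fin n) F := U.toHomUnits

lemma toG_coe {n : ℕ} (U : G →* Matrix (Fin n) (Fin n) F) (g : G) :
    ((toG U g : GL (Fin n) F) : Matrix (Fin n) (Fin n) F) = U g := rfl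

lemma toM_toG {n : ℕ} (U : G →* Matrix (Fin n) (Fin n) F) : toM (toG U) = U := by
  ext1 g
  rfl

/-- the abstract form of general position from the form with matrices -/
lemma gp_of_matrices {ι : Type w} {m : ι → ℕ} {σ : ∀ i, G →* GL (Fin (m i)) F}
    (h : ∀ (r : ℕ) (A : G →* GL (Fin r) F), ∃ k, DisjointFrom A (σ k)) :
    GP fun i => toM (σ i) := by
  classical
  intro X _ _ _ A
  let b := Module.finBasis F X
  let A' : G →* Matrix (Fin (Module.finrank F X)) (Fin (Module.finrank F X)) F :=
    (LinearMap.toMatrixAlgEquiv b).toMulEquiv.toMonoidHom.comp A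
  obtain ⟨k, hk⟩ := h _ (toG A')
  refine ⟨k, ?_⟩
  intro T hT Z hZ
  have h1 : ∀ g x, b.equivFun (A g x) = A' g *ᵥ b.equivFun x := by
    intro g x
    have h2 := LinearMap.toMatrix_mulVec_repr b b (A g) x
    have h3 : A' g = LinearMap.toMatrix b b (A g) := rfl
    rw [h3]
    exact h2.symm
  have h2 := hk (b.equivFun.toLinearMap ∘ₗ T) (fun g Z => by
    rw [LinearMap.comp_apply, LinearMap.comp_apply]
    have h3 : T (σ k g * Z * ((σ k g)⁻¹ : GL (Fin (m k)) F)) = A g (T Z) := by
      have h4 := hT g Z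
      rw [toM_inv] at h4
      exact h4
    rw [h3, toG_coe]
    exact h1 g (T Z)) Z hZ
  rw [LinearMap.comp_apply] at h2
  exact b.equivFun.map_eq_zero_iff.mp h2

lemma slm_eq (m : ℕ) : slm m F = sl (Fin m) F := by
  ext Z
  rw [slm, LinearMap.mem_ker, mem_sl]
  rfl

lemma gp_of_general {ι : Type w} {m : ι → ℕ} {σ : ∀ i, G →* GL (Fin (m i)) F}
    (h : GeneralPosition σ) : GP fun i => toM (σ i) := by
  rcases h with h | h | ⟨I, hI, h1, h2⟩
  · exact gp_of_matrices h
  · apply gp_of_kernels
    intro J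
    obtain ⟨k, hk⟩ := h J
    refine ⟨k, fun M hM => hk M fun g hg => ?_⟩
    refine hM g fun j hj => ?_
    rw [toM_apply, hg j hj]
    rfl
  · apply gp_of_adjoint I hI
    · intro i hi P hP hPi
      have h3 := h1 i hi P (by rw [slm_eq]; exact hP) (fun g Z hZ => by
        have h4 := hPi g Z hZ
        rw [toM_inv] at h4
        exact h4)
      rw [slm_eq] at h3
      exact h3
    · intro i hi j hj hij hiso
      apply h2 i hi j hj hij
      obtain ⟨e, he⟩ := hiso
      let e1 : slm (m i) F ≃ₗ[F] sl (Fin (m i)) F := LinearEquiv.ofEq _ _ (slm_eq (m i))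
      let e2 : sl (Fin (m j)) F ≃ₗ[F] slm (m j) F := LinearEquiv.ofEq _ _ (slm_eq (m j)).symm
      refine ⟨(e1.trans e).trans e2, fun g Z Y hY => ?_⟩
      have h3 := he g (e1 Z)
      have h4 : (⟨toM (σ i) g * ((e1 Z : sl (Fin (m i)) F) : Matrix _ _ F) * toM (σ i) g⁻¹,
          sl_conj (toM (σ i)) g (e1 Z).2⟩ : sl (Fin (m i)) F) = e1 Y := by
        apply Subtype.ext
        change toM (σ i) g * (Z : Matrix _ _ F) * toM (σ i) g⁻¹ = (Y : Matrix _ _ F)
        rw [hY, toM_inv, toM_apply]
      rw [h4, toM_inv] at h3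
      exact h3

variable {n N m : ℕ} {U : G →* Matrix (Fin n) (Fin n) F} {S : G →* Matrix (Fin m) (Fin m) F}
  {R : G →* Matrix (Fin N) (Fin N) F}

/-- characteristic polynomials -/
lemma charpoly_of_iso (hm : Nonempty (Fin m)) (h : Iso (kr U S) R) {g : G} (hS : S g = 1)
    {p : Polynomial F} (hp : p.Monic) (hR : (R g).charpoly = p ^ m) : (U g).charpoly = p := by
  obtain ⟨P, Q, h1, h2, h3⟩ := h
  have h4 : kr U S g = Q * (R g * P) := by
    calc kr U S g = (Q * P) * kr U S g := by rw [h2, Matrix.one_mul]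
      _ = Q * (R g * P) := by rw [Matrix.mul_assoc, h3]
  have hcard : Fintype.card (Fin n × Fin m) = Fintype.card (Fin N) := by
    have e1 : Function.Injective P.mulVecLin := by
      intro x y hxy
      have h5 := congrArg (Q *ᵥ ·) hxy
      simp only [mulVecLin_apply, mulVec_mulVec, h2, one_mulVec] at h5
      exact h5
    have e2 : Function.Surjective P.mulVecLin := by
      intro y
      refine ⟨Q *ᵥ y, ?_⟩
      rw [mulVecLin_apply, mulVec_mulVec, h1, one_mulVec]
    have e3 := (LinearEquiv.ofBijective P.mulVecLin ⟨e1, e2⟩).finrank_eq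
    rwa [Module.finrank_fintype_fun_eq_card, Module.finrank_fintype_fun_eq_card] at e3
  have h5 : (kr U S g).charpoly = (R g).charpoly := by
    have e1 := Matrix.charpoly_mul_comm' Q (R g * P)
    have e2 : R g * P * Q = R g := by rw [Matrix.mul_assoc, h1, Matrix.mul_one]
    rw [e2, ← h4, hcard] at e1
    exact mul_left_cancel₀ (pow_ne_zero _ Polynomial.X_ne_zero) e1
  have h6 : (kr U S g).charpoly = (U g).charpoly ^ m := by
    rw [kr_apply, hS]
    have e1 : charmatrix (U g ⊗ₖ (1 : Matrix (Fin m) (Fin m) F)) =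
        charmatrix (U g) ⊗ₖ (1 : Matrix (Fin m) (Fin m) (Polynomial F)) := by
      ext ⟨r, c⟩ ⟨s, d⟩
      rw [kroneckerMap_apply]
      by_cases hrs : r = s
      · subst hrs
        by_cases hcd : c = d
        · subst hcd
          rw [charmatrix_apply_eq, charmatrix_apply_eq, kroneckerMap_apply, one_apply_eq,
            one_apply_eq, mul_one, mul_one]
        · rw [charmatrix_apply_ne _ _ _ (by simp [hcd]), kroneckerMap_apply, one_apply_ne hcd,
            one_apply_ne hcd, mul_zero, mul_zero, map_zero, neg_zero]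
      · rw [charmatrix_apply_ne _ _ _ (by simp [hrs]), charmatrix_apply_ne _ _ _ hrs,
          kroneckerMap_apply]
        by_cases hcd : c = d
        · subst hcd
          rw [one_apply_eq, one_apply_eq, mul_one, mul_one]
        · rw [one_apply_ne hcd, one_apply_ne hcd, mul_zero, mul_zero, map_zero, neg_zero]
    rw [charpoly, e1, det_kronecker, det_one, one_pow, mul_one, Fintype.card_fin, charpoly]
  have hm0 : m ≠ 0 := by
    rintro rfl
    obtain ⟨c⟩ := hm
    exact c.elim0
  have h7 : (U g).charpoly ^ m = p ^ m := by rw [← h6, h5, hR]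
  classical
  have h8 : (U g).charpoly ∣ p := (IsIntegrallyClosed.pow_dvd_pow_iff hm0).mp h7.dvd
  have h9 : p ∣ (U g).charpoly := (IsIntegrallyClosed.pow_dvd_pow_iff hm0).mp h7.symm.dvd
  exact Polynomial.eq_of_monic_of_associated (charpoly_monic _) hp (associated_of_dvd_dvd h8 h9)

end abstract_

end Pool.Agent.H66.TP
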