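import Pool.Agent.H66.TP.Fin

/-!
# The tensor patching theorem for Galois representations, families in general position
-/

set_option autoImplicit false

open scoped Pointwise NumberField
open Matrix IsDedekindDomain Kronecker Pool.Agent.H71.Patch Pool.Agent.H41.TP

namespace Pool.Agent.H66.TP

/-- The tensor patching theorem for families in general position, with all properties. -/
theorem tensor_patch_gp {K : Type*} [Field K] [NumberField K] {F : Type*} [Field F]
    [TopologicalSpace F] [IsTopologicalRing F] {ι : Type*} (m N : ι → ℕ) (hm : ∀ i, 0 < m i)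
    (s : ∀ i, GalK K →* GL (Fin (m i)) F) (R : ∀ i, GalK K →* GL (Fin (N i)) F)
    (hs : ∀ i, Continuous (s i)) (hR : ∀ i, Continuous (R i)) (gen : GeneralPosition s)
    (compat : ∀ i j, MIso (fun g => (R i g).val ⊗ₖ (s j g).val)
      (fun g => (R j g).val ⊗ₖ (s i g).val)) :
    ∃ (n : ℕ) (ρ : GalK K →* GL (Fin n) F), Continuous ρ ∧ (∀ i, N i = n * m i) ∧
      (∀ i, MIso (fun g => (R i g).val) (fun g => (ρ g).val ⊗ₖ (s i g).val)) ∧
      (∀ (n' : ℕ) (ρ' : GalK K →* GL (Fin n') F),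
        (∀ i, MIso (fun g => (R i g).val) (fun g => (ρ' g).val ⊗ₖ (s i g).val)) →
        MIso (fun g => (ρ' g).val) (fun g => (ρ g).val)) ∧
      (∀ i, Irred (R i) → Irred ρ) ∧
      (∀ (v : HeightOneSpectrum (𝓞 K)) (i : ι), Unram (R i) v → Unram (s i) v → Unram ρ v) ∧
      (∀ (i : ι) (D : Subgroup (GalK K)), (∀ g ∈ D, s i g = 1) → SummandOn D ρ (R i)) ∧
      (∀ (i : ι) (g : GalK K) (p : Polynomial F), p.Monic → s i g = 1 →
        (R i g).val.charpoly = p ^ m i → (ρ g).val.charpoly = p) ∧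
      (n = 2 → (2 : F) ≠ 0 → ∀ (g : GalK K) (a d : F) (i j : ι),
        (s i g).val.trace ≠ 0 → (R i g).val.trace = a * (s i g).val.trace →
        (s j (g ^ 2)).val.trace ≠ 0 →
        (R j (g ^ 2)).val.trace = (a ^ 2 - 2 * d) * (s j (g ^ 2)).val.trace →
        (ρ g).val.charpoly = Polynomial.X ^ 2 - Polynomial.C a * Polynomial.X + Polynomial.C d) := by
  have hGP := gp_of_general gen
  obtain ⟨n, U, hU, huniq⟩ := tensor_patching (fun i => ⟨⟨0, hm i⟩⟩) (fun i => toM (R i))
    (fun i => toM (s i)) hGP compat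
  have hiso : ∀ i, MIso (fun g => (R i g).val)
      (fun g => (toG U g).val ⊗ₖ (s i g).val) := fun i => (hU i).symm
  obtain ⟨i0, -⟩ := hGP F (1 : GalK K →* (F →ₗ[F] F))
  refine ⟨n, toG U, ?_, ?_, hiso, ?_, ?_, ?_, ?_, ?_, ?_⟩
  · exact continuous_of_iso ⟨0, hm i0⟩ (R i0) _ (s i0) (hR i0) (hs i0) (hiso i0)
  · intro i
    have h := (hiso i).card_eq
    rwa [Fintype.card_prod, Fintype.card_fin, Fintype.card_fin, Fintype.card_fin] at h
  · intro n' ρ' h'
    exact huniq n' (toM ρ') fun i =>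
      Iso.symm (R := toM (R i)) (S := kr (toM ρ') (toM (s i))) (h' i)
  · intro i hi
    exact irred_of_iso (R i) _ (s i) ⟨0, hm i⟩ (hiso i) hi
  · intro v i h1 h2 Q hQ g hg
    exact eq_one_of_iso (R i) _ (s i) ⟨0, hm i⟩ (hiso i) g (h1 Q hQ g hg) (h2 Q hQ g hg)
  · intro i D hD
    exact summand_of_iso (R i) _ (s i) ⟨0, hm i⟩ (hiso i) D hD
  · intro i g p hp h1 h2
    have h3 : toM (s i) g = 1 := by
      rw [toM_apply, h1]
      rfl
    exact charpoly_of_iso (U := U) (S := toM (s i)) (R := toM (R i)) ⟨⟨0, hm i⟩⟩ (hU i) h3 hp h2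
  · intro hn h2 g a d i j hi1 hi2 hj1 hj2
    subst hn
    have htr : ∀ (k : ι) (x : GalK K), (R k x).val.trace =
        ((toG U x).val).trace * (s k x).val.trace := by
      intro k x
      rw [(hiso k).trace_eq x, Matrix.trace_kronecker]
    apply charpoly_two_of_trace h2
    · have h := htr i g
      rw [hi2] at h
      exact (mul_right_cancel₀ hi1 h).symm
    · have h := htr j (g ^ 2)
      rw [hj2] at h
      rw [← Units.val_pow_eq_pow_val, ← map_pow]
      exact (mul_right_cancel₀ hj1 h).symm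

end Pool.Agent.H66.TP
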