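import Pool.Agent.H66.TP.Factor

/-!
# Tensor patching: the abstract theorem
-/

set_option autoImplicit false

open Matrix
open scoped Kronecker

namespace Pool.Agent.H66.TP

universe u v

variable {F : Type u} [Field F] {G : Type v} [Group G]
variable {α α' β γ δ : Type} [Fintype α] [Fintype α'] [Fintype β] [Fintype γ] [Fintype δ]
variable [DecidableEq α] [DecidableEq α'] [DecidableEq β] [DecidableEq γ] [DecidableEq δ]

/-- the direct sum -/
def prr {X Y : Type u} [AddCommGroup X] [Module F X] [AddCommGroup Y] [Module F Y]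
    (A : G →* (X →ₗ[F] X)) (B : G →* (Y →ₗ[F] Y)) : G →* ((X × Y) →ₗ[F] (X × Y)) where
  toFun g := (A g).prodMap (B g)
  map_one' := by
    refine LinearMap.ext fun x => ?_
    simp
  map_mul' g h := by
    refine LinearMap.ext fun x => ?_
    simp [map_mul]

lemma Disj.fst {X Y : Type u} [AddCommGroup X] [Module F X] [AddCommGroup Y] [Module F Y]
    {A : G →* (X →ₗ[F] X)} {B : G →* (Y →ₗ[F] Y)} {S : G →* Matrix γ γ F}
    (h : Disj (prr A B) S) : Disj A S :=
  h.mono (LinearMap.inl F X Y) LinearMap.inl_injective fun g y => by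
    change ((A g y : X), (0 : Y)) = (A g y, B g 0)
    rw [map_zero]

lemma Disj.snd {X Y : Type u} [AddCommGroup X] [Module F X] [AddCommGroup Y] [Module F Y]
    {A : G →* (X →ₗ[F] X)} {B : G →* (Y →ₗ[F] Y)} {S : G →* Matrix γ γ F}
    (h : Disj (prr A B) S) : Disj B S :=
  h.mono (LinearMap.inr F X Y) LinearMap.inr_injective fun g y => by
    change ((0 : X), (B g y : Y)) = (A g 0, B g y)
    rw [map_zero]

/-- the multiplicity representation is an equivariant quotient of the homomorphisms -/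
lemma exists_quot [Nonempty β] {U : G →* Matrix δ δ F} {W : G →* Matrix β β F}
    {V : G →* Matrix α α F} (h : Iso (kr U W) V) :
    ∃ p : Matrix α β F →ₗ[F] (δ → F), Function.Surjective p ∧
      ∀ g f, p (V g * f * W g⁻¹) = U g *ᵥ p f := by
  obtain ⟨P, Q, h1, h2, h3⟩ := h
  have h4 : ∀ g, Q * V g = kr U W g * Q := fun g => by
    calc Q * V g = Q * V g * (P * Q) := by rw [h1, Matrix.mul_one]
      _ = Q * (V g * P) * Q := by simp only [Matrix.mul_assoc]
      _ = Q * (P * kr U W g) * Q := by rw [h3]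
      _ = (Q * P) * kr U W g * Q := by simp only [Matrix.mul_assoc]
      _ = kr U W g * Q := by rw [h2, Matrix.one_mul]
  let q : Matrix (δ × β) β F →ₗ[F] (δ → F) :=
    { toFun := fun M r => ∑ c, M (r, c) c
      map_add' := fun M M' => by
        funext r
        simp only [Matrix.add_apply, Finset.sum_add_distrib, Pi.add_apply]
      map_smul' := fun a M => by
        funext r
        simp only [Matrix.smul_apply, Pi.smul_apply, smul_eq_mul, Finset.mul_sum,
          RingHom.id_apply] }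
  have hq : ∀ M r, q M r = ∑ c, M (r, c) c := fun _ _ => rfl
  let p : Matrix α β F →ₗ[F] (δ → F) :=
    { toFun := fun f => q (Q * f)
      map_add' := fun f f' => by rw [Matrix.mul_add, map_add]
      map_smul' := fun a f => by rw [Matrix.mul_smul, map_smul, RingHom.id_apply] }
  have hp : ∀ f, p f = q (Q * f) := fun _ => rfl
  refine ⟨p, ?_, ?_⟩
  · intro x
    obtain ⟨c₀⟩ := ‹Nonempty β›
    refine ⟨P * of fun (t : δ × β) (c : β) => if t.2 = c₀ ∧ c = c₀ then x t.1 else 0, ?_⟩
    rw [hp, ← Matrix.mul_assoc, h2, Matrix.one_mul]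
    funext r
    rw [hq, Finset.sum_eq_single c₀]
    · rw [of_apply, if_pos ⟨rfl, rfl⟩]
    · intro c _ hc
      rw [of_apply, if_neg (fun h => hc h.2)]
    · intro hh; exact absurd (Finset.mem_univ _) hh
  · intro g f
    have e1 : Q * (V g * f * W g⁻¹) = kr U W g * (Q * f) * W g⁻¹ := by
      calc Q * (V g * f * W g⁻¹) = (Q * V g) * f * W g⁻¹ := by simp only [Matrix.mul_assoc]
        _ = _ := by rw [h4]; simp only [Matrix.mul_assoc]
    rw [hp, hp, e1]
    set M := Q * f with hM
    funext r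
    rw [hq, mulVec, dotProduct]
    let Ms : δ → Matrix β β F := fun s => of fun c' c'' => M (s, c') c''
    have hMs : ∀ s c' c'', Ms s c' c'' = M (s, c') c'' := fun _ _ _ => rfl
    have e3 : ∀ c c'', (kr U W g * M) (r, c) c'' = ∑ s, U g r s * (W g * Ms s) c c'' := by
      intro c c''
      rw [mul_apply, Fintype.sum_prod_type]
      refine Finset.sum_congr rfl fun s _ => ?_
      rw [mul_apply, Finset.mul_sum]
      refine Finset.sum_congr rfl fun c' _ => ?_
      rw [kr_apply, kroneckerMap_apply, hMs]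
      ring
    have e2 : ∀ c c', (kr U W g * M * W g⁻¹) (r, c) c' =
        ∑ s, U g r s * (W g * Ms s * W g⁻¹) c c' := by
      intro c c'
      rw [mul_apply]
      simp only [e3, Finset.sum_mul]
      rw [Finset.sum_comm]
      refine Finset.sum_congr rfl fun s _ => ?_
      rw [mul_apply, Finset.mul_sum]
      refine Finset.sum_congr rfl fun c'' _ => ?_
      ring
    calc ∑ c, (kr U W g * M * W g⁻¹) (r, c) c
        = ∑ s, U g r s * (W g * Ms s * W g⁻¹).trace := by
          rw [Finset.sum_congr rfl fun c _ => e2 c c, Finset.sum_comm]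
          refine Finset.sum_congr rfl fun s _ => ?_
          rw [← Finset.mul_sum]
          rfl
      _ = ∑ s, U g r s * q M s := by
          refine Finset.sum_congr rfl fun s _ => ?_
          rw [Matrix.trace_mul_comm, ← Matrix.mul_assoc, inv_mul_eq_one, Matrix.one_mul, hq]
          rfl

/-- homomorphisms between two multiplicity representations -/
lemma Disj.mult [Nonempty β] {U : G →* Matrix δ δ F} {U₂ : G →* Matrix α' α' F}
    {W : G →* Matrix β β F} {V : G →* Matrix α α F} {S : G →* Matrix γ γ F}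
    (h : Iso (kr U W) V) (j : (α' → F) →ₗ[F] Matrix α β F) (hj : Function.Injective j)
    (hje : ∀ g x, j (U₂ g *ᵥ x) = V g * j x * W g⁻¹)
    (hd : Disj (lin (hom W V) (hom W V)) S) : Disj (hom U U₂) S := by
  obtain ⟨p, hp, hpe⟩ := exists_quot h
  let i : Matrix α' δ F →ₗ[F] (Matrix α β F →ₗ[F] Matrix α β F) :=
    LinearMap.mk₂ F (fun (f : Matrix α' δ F) (h : Matrix α β F) => j (f *ᵥ p h))
      (fun f f' h => by rw [add_mulVec, map_add])
      (fun c f h => by rw [smul_mulVec, map_smul])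
      (fun f h h' => by rw [map_add, mulVec_add, map_add])
      (fun c f h => by rw [map_smul, mulVec_smul, map_smul])
  have hi : ∀ f h, i f h = j (f *ᵥ p h) := fun _ _ => rfl
  refine hd.mono i ?_ ?_
  · rw [injective_iff_map_eq_zero]
    intro f hf
    have h1 : ∀ x, f *ᵥ x = 0 := by
      intro x
      obtain ⟨h, rfl⟩ := hp x
      apply hj
      rw [map_zero, ← hi, hf]
      rfl
    ext a b
    have h2 := congrFun (h1 (Pi.single b 1)) a
    rw [mulVec_single_one] at h2
    exact h2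
  · intro g f
    refine LinearMap.ext fun h => ?_
    rw [hi, lin_apply, hi, hom_apply, hom_apply, hom_apply, hpe, ← hje, ← mulVec_mulVec,
      ← mulVec_mulVec]

/-- homomorphisms between tensor products with the same representation -/
lemma Disj.tens {U : G →* Matrix δ δ F} {U₂ : G →* Matrix α' α' F} {S : G →* Matrix β β F}
    {T : G →* Matrix γ γ F} (hd : Disj (lin (hom S S) (hom U U₂)) T) :
    Disj (hom (kr U S) (kr U₂ S)) T := by
  let i : Matrix (α' × β) (δ × β) F →ₗ[F] (Matrix β β F →ₗ[F] Matrix α' δ F) :=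
    { toFun := fun f => ptrL f
      map_add' := fun f f' => LinearMap.ext fun Z => ptr_add f f' Z
      map_smul' := fun c f => LinearMap.ext fun Z => ptr_smul c f Z }
  have hi : ∀ f Z, i f Z = ptr f Z := fun _ _ => rfl
  refine hd.mono i ?_ ?_
  · rw [injective_iff_map_eq_zero]
    intro f hf
    ext ⟨a, c⟩ ⟨b, c'⟩
    rw [← ptr_single f c c' a b, ← hi, hf]
    rfl
  · intro g f
    refine LinearMap.ext fun Z => ?_
    rw [hi, lin_apply, hi, hom_apply, hom_apply, hom_apply, kr_apply, kr_apply, ptr_mul, inv_inv]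

/-- the bound for the multiplicity representations of `V` over `W` -/
abbrev Bd (V : G →* Matrix α α F) (W : G →* Matrix β β F) :=
  lin (hom W V) (hom W V)

/-- a factorisation of `V` over `W` and `V'` over `W'` by the same `U` -/
structure Fac {n : ℕ} (U : G →* Matrix (Fin n) (Fin n) F) (V : G →* Matrix α α F)
    (W : G →* Matrix β β F) (V' : G →* Matrix α' α' F) (W' : G →* Matrix γ γ F) : Prop where
  one : Iso (kr U W) V
  two : Iso (kr U W') V'
  emb : ∃ j : (Fin n → F) →ₗ[F] Matrix α β F, Function.Injective j ∧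
    ∀ g x, j (U g *ᵥ x) = V g * j x * W g⁻¹

/-- two factorisations are isomorphic -/
lemma Fac.unique [Nonempty β] [Nonempty γ] {ε ε' : Type} [Fintype ε] [DecidableEq ε]
    [Fintype ε'] [DecidableEq ε'] [Nonempty ε] {n n' : ℕ}
    {U : G →* Matrix (Fin n) (Fin n) F} {U₂ : G →* Matrix (Fin n') (Fin n') F}
    {V : G →* Matrix α α F} {W : G →* Matrix β β F} {V' : G →* Matrix α' α' F}
    {W' : G →* Matrix γ γ F} {V'' : G →* Matrix ε' ε' F} {W'' : G →* Matrix ε ε F}
    (h : Fac U V W V' W') (h₂ : Fac U₂ V W V'' W'') (hc : Iso (kr V' W'') (kr V'' W'))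
    (d1 : Disj (Bd V W) W') (d2 : Disj (lin (hom W' W') (Bd V W)) W'') : Iso U U₂ := by
  obtain ⟨j, hj, hje⟩ := h.emb
  obtain ⟨j₂, hj₂, hje₂⟩ := h₂.emb
  -- the two isomorphisms
  have e1 : Iso (kr (kr U W') W'') (kr (kr U₂ W') W'') :=
    ((h.two.kr (Iso.refl W'')).trans hc).trans
      ((h₂.two.symm.kr (Iso.refl W')).trans (kr_swap U₂ W'' W'))
  obtain ⟨p, hp, hpe⟩ := exists_quot h.one
  obtain ⟨p₂, hp₂, hpe₂⟩ := exists_quot h₂.one
  -- the embedding of the linear maps into the bound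
  have key : ∀ {m m' : ℕ} (A : G →* Matrix (Fin m) (Fin m) F) (B : G →* Matrix (Fin m') (Fin m') F),
      Iso (kr A W) V → (∃ j : (Fin m' → F) →ₗ[F] Matrix α β F, Function.Injective j ∧
        ∀ g x, j (B g *ᵥ x) = V g * j x * W g⁻¹) →
      Disj (lin (hom W' W') (hom A B)) W'' := by
    intro m m' A B hA hB
    obtain ⟨q, hq, hqe⟩ := exists_quot hA
    obtain ⟨i, hi, hie⟩ := hB
    let I : Matrix (Fin m') (Fin m) F →ₗ[F] (Matrix α β F →ₗ[F] Matrix α β F) :=
      LinearMap.mk₂ F (fun (f : Matrix (Fin m') (Fin m) F) (h : Matrix α β F) => i (f *ᵥ q h))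
        (fun f f' h => by rw [add_mulVec, map_add])
        (fun c f h => by rw [smul_mulVec, map_smul])
        (fun f h h' => by rw [map_add, mulVec_add, map_add])
        (fun c f h => by rw [map_smul, mulVec_smul, map_smul])
    have hI : ∀ f h, I f h = i (f *ᵥ q h) := fun _ _ => rfl
    have hIinj : Function.Injective I := by
      rw [injective_iff_map_eq_zero]
      intro f hf
      have h1 : ∀ x, f *ᵥ x = 0 := by
        intro x
        obtain ⟨h, rfl⟩ := hq x
        apply hi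
        rw [map_zero, ← hI, hf]
        rfl
      ext a b
      have h2 := congrFun (h1 (Pi.single b 1)) a
      rw [mulVec_single_one] at h2
      exact h2
    have hIe : ∀ g f, I (hom A B g f) = Bd V W g (I f) := by
      intro g f
      refine LinearMap.ext fun h => ?_
      rw [hI, lin_apply, hI, hom_apply, hom_apply, hom_apply, hqe, ← hie, ← mulVec_mulVec,
        ← mulVec_mulVec]
    refine d2.mono (LinearMap.compRight F I) ?_ ?_
    · rw [injective_iff_map_eq_zero]
      intro f hf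
      refine LinearMap.ext fun x => ?_
      apply hIinj
      have := congrArg (fun t => t x) hf
      simpa using this
    · intro g f
      refine LinearMap.ext fun x => ?_
      simp only [LinearMap.compRight_apply, LinearMap.comp_apply, lin_apply]
      exact hIe g _
  have e2 : Iso (kr U W') (kr U₂ W') :=
    Disj.cancel (Disj.tens (key U U₂ h.one ⟨j₂, hj₂, hje₂⟩))
      (Disj.tens (key U₂ U h₂.one ⟨j, hj, hje⟩)) e1
  exact Disj.cancel (Disj.mult h.one j₂ hj₂ hje₂ d1) (Disj.mult h₂.one j hj hje d1) e2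

/-- general position, abstract form -/
def GP {ι : Type*} {m : ι → ℕ} (S : ∀ i, G →* Matrix (Fin (m i)) (Fin (m i)) F) : Prop :=
  ∀ (X : Type u) [AddCommGroup X] [Module F X] [FiniteDimensional F X]
    (A : G →* (X →ₗ[F] X)), ∃ k, Disj A (S k)

lemma GP.six {ι : Type*} {m : ι → ℕ} {S : ∀ i, G →* Matrix (Fin (m i)) (Fin (m i)) F} (h : GP S)
    {X₁ X₂ X₃ X₄ X₅ X₆ : Type u} [AddCommGroup X₁] [Module F X₁] [FiniteDimensional F X₁]
    [AddCommGroup X₂] [Module F X₂] [FiniteDimensional F X₂]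
    [AddCommGroup X₃] [Module F X₃] [FiniteDimensional F X₃]
    [AddCommGroup X₄] [Module F X₄] [FiniteDimensional F X₄]
    [AddCommGroup X₅] [Module F X₅] [FiniteDimensional F X₅]
    [AddCommGroup X₆] [Module F X₆] [FiniteDimensional F X₆]
    (A₁ : G →* (X₁ →ₗ[F] X₁)) (A₂ : G →* (X₂ →ₗ[F] X₂)) (A₃ : G →* (X₃ →ₗ[F] X₃))
    (A₄ : G →* (X₄ →ₗ[F] X₄)) (A₅ : G →* (X₅ →ₗ[F] X₅)) (A₆ : G →* (X₆ →ₗ[F] X₆)) :
    ∃ k, Disj A₁ (S k) ∧ Disj A₂ (S k) ∧ Disj A₃ (S k) ∧ Disj A₄ (S k) ∧ Disj A₅ (S k) ∧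
      Disj A₆ (S k) := by
  obtain ⟨k, hk⟩ := h (X₁ × X₂ × X₃ × X₄ × X₅ × X₆)
    (prr A₁ (prr A₂ (prr A₃ (prr A₄ (prr A₅ A₆)))))
  exact ⟨k, hk.fst, hk.snd.fst, hk.snd.snd.fst, hk.snd.snd.snd.fst, hk.snd.snd.snd.snd.fst,
    hk.snd.snd.snd.snd.snd⟩

/-- **Tensor patching**, abstract form. -/
theorem tensor_patching {ι : Type*} {N m : ι → ℕ} (hm : ∀ i, Nonempty (Fin (m i)))
    (R : ∀ i, G →* Matrix (Fin (N i)) (Fin (N i)) F)
    (S : ∀ i, G →* Matrix (Fin (m i)) (Fin (m i)) F) (hGP : GP S)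
    (compat : ∀ i j, Iso (kr (R i) (S j)) (kr (R j) (S i))) :
    ∃ (n : ℕ) (U : G →* Matrix (Fin n) (Fin n) F), (∀ i, Iso (kr U (S i)) (R i)) ∧
      ∀ (n' : ℕ) (U' : G →* Matrix (Fin n') (Fin n') F), (∀ i, Iso (kr U' (S i)) (R i)) →
        Iso U' U := by
  -- a good index for every `i`
  have h1 : ∀ i, ∃ k, Disj (lin (hom (S i) (S i)) (hom (R i) (R i))) (S k) ∧
      Disj (Bd (R i) (S i)) (S k) := by
    intro i
    obtain ⟨k, hk⟩ := hGP _ (prr (lin (hom (S i) (S i)) (hom (R i) (R i))) (Bd (R i) (S i)))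
    exact ⟨k, hk.fst, hk.snd⟩
  choose k hk1 hk2 using h1
  have h2 : ∀ i, ∃ (n : ℕ) (U : G →* Matrix (Fin n) (Fin n) F),
      Fac U (R i) (S i) (R (k i)) (S (k i)) := by
    intro i
    obtain ⟨n, U, h3, h4, h5⟩ := factor (compat i (k i)) (hk1 i)
    exact ⟨n, U, h3, h4, h5⟩
  choose n U hU using h2
  -- all these representations are isomorphic
  have h3 : ∀ i j, Iso (U i) (U j) := by
    intro i j
    obtain ⟨l, l1, l2, l3, l4, l5, l6⟩ := hGP.six
      (lin (hom (S i) (S i)) (hom (R i) (R i))) (lin (hom (S j) (S j)) (hom (R j) (R j)))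
      (lin (hom (S (k i)) (S (k i))) (Bd (R i) (S i)))
      (lin (hom (S (k j)) (S (k j))) (Bd (R j) (S j)))
      (hom (U i) (U j)) (hom (U j) (U i))
    obtain ⟨ni, Ui, a1, a2, a3⟩ := factor (compat i l) l1
    obtain ⟨nj, Uj, b1, b2, b3⟩ := factor (compat j l) l2
    have c1 : Iso (U i) Ui := (hU i).unique ⟨a1, a2, a3⟩ (compat (k i) l) (hk2 i) l3
    have c2 : Iso (U j) Uj := (hU j).unique ⟨b1, b2, b3⟩ (compat (k j) l) (hk2 j) l4
    have c3 : Iso (kr (U i) (S l)) (kr (U j) (S l)) :=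
      ((c1.kr (Iso.refl _)).trans a2).trans (b2.symm.trans (c2.symm.kr (Iso.refl _)))
    exact Disj.cancel l5 l6 c3
  obtain ⟨i₀, -⟩ := hGP F 1
  refine ⟨n i₀, U i₀, fun i => ((h3 i₀ i).kr (Iso.refl _)).trans (hU i).one, ?_⟩
  intro n' U' hU'
  obtain ⟨l, hl⟩ := hGP _ (prr (hom U' (U i₀)) (hom (U i₀) U'))
  have c3 : Iso (kr U' (S l)) (kr (U i₀) (S l)) :=
    (hU' l).trans (((h3 i₀ l).kr (Iso.refl _)).trans (hU l).one).symm
  exact Disj.cancel hl.fst hl.snd c3

end Pool.Agent.H66.TP
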