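import Pool.Agent.H66.TP.Disj

/-!
# Tensor patching: a module with an equivariant action of a matrix algebra is a tensor product
-/

set_option autoImplicit false

open Matrix
open scoped Kronecker

namespace Pool.Agent.H66.TP

universe u v

variable {F : Type u} [Field F] {G : Type v} [Group G]
variable {α β γ δ : Type} [Fintype α] [Fintype β] [Fintype γ] [Fintype δ]
variable [DecidableEq α] [DecidableEq β] [DecidableEq γ] [DecidableEq δ]

section

variable (be : Matrix β β F →ₗ[F] Matrix α α F)

/-- the multiplicity space -/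
def msp : Submodule F (Matrix α β F) where
  carrier := {f | ∀ Z, f * Z = be Z * f}
  add_mem' {f f'} hf hf' Z := by rw [Matrix.add_mul, Matrix.mul_add, hf Z, hf' Z]
  zero_mem' Z := by rw [Matrix.zero_mul, Matrix.mul_zero]
  smul_mem' c f hf Z := by rw [Matrix.smul_mul, Matrix.mul_smul, hf Z]

lemma mem_msp {f : Matrix α β F} : f ∈ msp be ↔ ∀ Z, f * Z = be Z * f := Iff.rfl

variable {be} {V : G →* Matrix α α F} {W : G →* Matrix β β F}

lemma msp_inv (he : ∀ g Z, be (W g * Z * W g⁻¹) = V g * be Z * V g⁻¹) (g : G)
    {f : Matrix α β F} (hf : f ∈ msp be) : V g * f * W g⁻¹ ∈ msp be := by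
  intro Z
  have h1 : be Z * V g = V g * be (W g⁻¹ * Z * W g) := by
    have h2 := he g (W g⁻¹ * Z * W g)
    have h3 : W g * (W g⁻¹ * Z * W g) * W g⁻¹ = Z := by
      calc W g * (W g⁻¹ * Z * W g) * W g⁻¹ = (W g * W g⁻¹) * Z * (W g * W g⁻¹) := by
            simp only [Matrix.mul_assoc]
        _ = Z := by rw [mul_inv_eq_one, Matrix.one_mul, Matrix.mul_one]
    rw [h3] at h2
    rw [h2, Matrix.mul_assoc, inv_mul_eq_one, Matrix.mul_one]
  calc V g * f * W g⁻¹ * Z = V g * (f * (W g⁻¹ * Z * W g)) * W g⁻¹ := by
        have h4 : W g⁻¹ * Z = W g⁻¹ * Z * (W g * W g⁻¹) := by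
          rw [mul_inv_eq_one, Matrix.mul_one]
        calc V g * f * W g⁻¹ * Z = V g * f * (W g⁻¹ * Z) := by simp only [Matrix.mul_assoc]
          _ = V g * f * (W g⁻¹ * Z * (W g * W g⁻¹)) := by rw [← h4]
          _ = _ := by simp only [Matrix.mul_assoc]
    _ = V g * (be (W g⁻¹ * Z * W g) * f) * W g⁻¹ := by rw [hf]
    _ = (V g * be (W g⁻¹ * Z * W g)) * f * W g⁻¹ := by simp only [Matrix.mul_assoc]
    _ = be Z * V g * f * W g⁻¹ := by rw [h1]
    _ = be Z * (V g * f * W g⁻¹) := by simp only [Matrix.mul_assoc]

/-- the action on the multiplicity space -/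
def act (he : ∀ g Z, be (W g * Z * W g⁻¹) = V g * be Z * V g⁻¹) : G →* (msp be →ₗ[F] msp be) where
  toFun g :=
    { toFun := fun f => ⟨V g * (f : Matrix α β F) * W g⁻¹, msp_inv he g f.2⟩
      map_add' := fun f f' => Subtype.ext (by
        change V g * ((f : Matrix α β F) + (f' : Matrix α β F)) * W g⁻¹ =
          V g * (f : Matrix α β F) * W g⁻¹ + V g * (f' : Matrix α β F) * W g⁻¹
        rw [Matrix.mul_add, Matrix.add_mul])
      map_smul' := fun c f => Subtype.ext (by
        change V g * (c • (f : Matrix α β F)) * W g⁻¹ = c • (V g * (f : Matrix α β F) * W g⁻¹)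
        rw [Matrix.mul_smul, Matrix.smul_mul]) }
  map_one' := by
    refine LinearMap.ext fun f => Subtype.ext ?_
    change V 1 * (f : Matrix α β F) * W 1⁻¹ = f
    rw [inv_one, map_one, map_one, Matrix.one_mul, Matrix.mul_one]
  map_mul' g h := by
    refine LinearMap.ext fun f => Subtype.ext ?_
    change V (g * h) * (f : Matrix α β F) * W (g * h)⁻¹ =
      V g * (V h * (f : Matrix α β F) * W h⁻¹) * W g⁻¹
    have h1 : (g * h)⁻¹ = h⁻¹ * g⁻¹ := by group
    rw [h1, map_mul, map_mul]
    simp only [Matrix.mul_assoc]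

lemma act_coe (he : ∀ g Z, be (W g * Z * W g⁻¹) = V g * be Z * V g⁻¹) (g : G) (f : msp be) :
    (act he g f : Matrix α β F) = V g * (f : Matrix α β F) * W g⁻¹ := rfl

end

/-- **Morita**: a representation `V` whose endomorphisms contain the matrices of `W`,
equivariantly, is a tensor product `U ⊗ W`. -/
theorem morita [Nonempty β] {V : G →* Matrix α α F} {W : G →* Matrix β β F}
    (be : Matrix β β F →ₗ[F] Matrix α α F) (h1 : be 1 = 1)
    (hm : ∀ Z Z', be (Z * Z') = be Z * be Z')
    (he : ∀ g Z, be (W g * Z * W g⁻¹) = V g * be Z * V g⁻¹) :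
    ∃ (n : ℕ) (U : G →* Matrix (Fin n) (Fin n) F) (E : Matrix α (Fin n × β) F)
      (E' : Matrix (Fin n × β) α F), E * E' = 1 ∧ E' * E = 1 ∧
      (∀ g, V g * E = E * kr U W g) ∧ (∀ Z, be Z * E = E * ((1 : Matrix (Fin n) (Fin n) F) ⊗ₖ Z)) ∧
      ∃ j : (Fin n → F) →ₗ[F] Matrix α β F, Function.Injective j ∧
        ∀ g x, j (U g *ᵥ x) = V g * j x * W g⁻¹ := by
  classical
  let b := Module.finBasis F (msp be)
  set n := Module.finrank F (msp be) with hn
  let U : G →* Matrix (Fin n) (Fin n) F :=
    (LinearMap.toMatrixAlgEquiv b).toMulEquiv.toMonoidHom.comp (act he)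
  have hU : ∀ g r, (act he g (b r) : msp be) = ∑ s, U g s r • b s := by
    intro g r
    have h2 : ∀ s, U g s r = b.repr (act he g (b r)) s := fun s => by
      change LinearMap.toMatrixAlgEquiv b (act he g) s r = _
      rw [LinearMap.toMatrixAlgEquiv_apply]
    simp only [h2]
    exact (b.sum_repr _).symm
  have hU' : ∀ g r, V g * (b r : Matrix α β F) * W g⁻¹ = ∑ s, U g s r • (b s : Matrix α β F) := by
    intro g r
    rw [← act_coe he, hU]
    simp
  have hU'' : ∀ g r, V g * (b r : Matrix α β F) = ∑ s, U g s r • ((b s : Matrix α β F) * W g) := by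
    intro g r
    have h2 := congrArg (fun M => M * W g) (hU' g r)
    simp only [Matrix.mul_assoc, inv_mul_eq_one, Matrix.mul_one] at h2
    rw [h2, Matrix.sum_mul]
    simp only [Matrix.smul_mul]
  let E : Matrix α (Fin n × β) F := of fun a p => (b p.1 : Matrix α β F) a p.2
  have hEa : ∀ a r c, E a (r, c) = (b r : Matrix α β F) a c := fun _ _ _ => rfl
  have hVE : ∀ g, V g * E = E * kr U W g := by
    intro g
    ext a ⟨r, c⟩
    have e1 : (V g * E) a (r, c) = (V g * (b r : Matrix α β F)) a c := by
      simp only [mul_apply, hEa]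
    rw [e1, hU'', Matrix.sum_apply, mul_apply, Fintype.sum_prod_type]
    refine Finset.sum_congr rfl fun s _ => ?_
    rw [Matrix.smul_apply, mul_apply, smul_eq_mul, Finset.mul_sum]
    refine Finset.sum_congr rfl fun c' _ => ?_
    rw [kr_apply, kroneckerMap_apply, hEa]
    ring
  have hbE : ∀ Z, be Z * E = E * ((1 : Matrix (Fin n) (Fin n) F) ⊗ₖ Z) := by
    intro Z
    ext a ⟨r, c⟩
    have e1 : (be Z * E) a (r, c) = (be Z * (b r : Matrix α β F)) a c := by
      simp only [mul_apply, hEa]
    have e2 : be Z * (b r : Matrix α β F) = (b r : Matrix α β F) * Z := ((b r).2 Z).symm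
    rw [e1, e2, mul_apply, mul_apply, Fintype.sum_prod_type, Finset.sum_eq_single r]
    · refine Finset.sum_congr rfl fun c' _ => ?_
      rw [kroneckerMap_apply, one_apply_eq, one_mul, hEa]
    · intro s _ hs
      refine Finset.sum_eq_zero fun c' _ => ?_
      rw [kroneckerMap_apply, one_apply_ne hs, zero_mul, mul_zero]
    · intro hh; exact absurd (Finset.mem_univ _) hh
  -- bijectivity
  have hinj : Function.Injective E.mulVecLin := by
    rw [injective_iff_map_eq_zero]
    intro x hx
    rw [mulVecLin_apply] at hx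
    let fc : β → msp be := fun c => ∑ r, x (r, c) • b r
    have hfc : ∀ c a d, (fc c : Matrix α β F) a d = ∑ r, x (r, c) * (b r : Matrix α β F) a d := by
      intro c a d
      simp only [fc, Submodule.coe_sum, Submodule.coe_smul, Matrix.sum_apply, Matrix.smul_apply,
        smul_eq_mul]
    have h2 : ∀ a, ∑ c, (fc c : Matrix α β F) a c = 0 := by
      intro a
      have h3 := congrFun hx a
      rw [mulVec, dotProduct, Fintype.sum_prod_type, Finset.sum_comm] at h3
      simp only [Pi.zero_apply] at h3
      rw [← h3]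
      refine Finset.sum_congr rfl fun c _ => ?_
      rw [hfc]
      refine Finset.sum_congr rfl fun r _ => ?_
      rw [hEa]; ring
    have h3 : ∀ c d a, (fc c : Matrix α β F) a d = 0 := by
      intro c d a
      -- multiply the relation by `be (single d c 1)`
      have h4 : ∑ c', (be (single d c 1) * (fc c' : Matrix α β F)) a c' = 0 := by
        have h5 : ∀ c', (be (single d c 1) * (fc c' : Matrix α β F)) a c' =
            ∑ a', be (single d c 1) a a' * (fc c' : Matrix α β F) a' c' := fun c' => mul_apply
        rw [Finset.sum_congr rfl fun c' _ => h5 c', Finset.sum_comm]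
        refine Finset.sum_eq_zero fun a' _ => ?_
        rw [← Finset.mul_sum, h2, mul_zero]
      have h5 : ∀ c', (be (single d c 1) * (fc c' : Matrix α β F)) a c' =
          if c' = c then (fc c : Matrix α β F) a d else 0 := by
        intro c'
        rw [← (fc c').2]
        by_cases hc : c' = c
        · subst hc
          rw [mul_single_apply_same, mul_one, if_pos rfl]
        · rw [mul_single_apply_of_ne _ _ _ _ _ hc, if_neg hc]
      rw [Finset.sum_congr rfl fun c' _ => h5 c', Finset.sum_ite_eq', if_pos (Finset.mem_univ _)]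
        at h4
      exact h4
    have h4 : ∀ c, fc c = 0 := fun c => by
      apply Subtype.ext
      ext a d
      exact h3 c d a
    funext ⟨r, c⟩
    have h5 := Fintype.linearIndependent_iff.mp b.linearIndependent (fun r => x (r, c)) (h4 c) r
    exact h5
  have hsurj : Function.Surjective E.mulVecLin := by
    intro v
    let fm : β → Matrix α β F := fun c => of fun a d => (be (single d c 1) *ᵥ v) a
    have hfma : ∀ c a d, fm c a d = (be (single d c 1) *ᵥ v) a := fun _ _ _ => rfl
    have hfm : ∀ c, fm c ∈ msp be := by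
      intro c Z
      ext a d
      have e1 : (fm c * Z) a d = (be (Z * single d c 1) *ᵥ v) a := by
        have e2 : Z * single d c 1 = ∑ d', Z d' d • single d' c (1 : F) := by
          ext p q
          rw [Matrix.sum_apply]
          by_cases hq : q = c
          · subst hq
            rw [mul_single_apply_same, mul_one, Finset.sum_eq_single p]
            · simp
            · intro e _ hep
              rw [Matrix.smul_apply, single_apply, if_neg (fun h => hep h.1), smul_zero]
            · intro hh; exact absurd (Finset.mem_univ _) hh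
          · rw [mul_single_apply_of_ne _ _ _ _ _ hq]
            symm
            refine Finset.sum_eq_zero fun e _ => ?_
            rw [Matrix.smul_apply, single_apply, if_neg (fun h => hq h.2.symm), smul_zero]
        rw [e2, map_sum, Matrix.sum_mulVec, Finset.sum_apply, mul_apply]
        refine Finset.sum_congr rfl fun d' _ => ?_
        rw [map_smul, Matrix.smul_mulVec, Pi.smul_apply, smul_eq_mul, hfma, mul_comm]
      have e3 : (be Z * fm c) a d = (be (Z * single d c 1) *ᵥ v) a := by
        rw [hm, ← mulVec_mulVec, mul_apply]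
        rfl
      rw [e1, e3]
    refine ⟨fun p => b.repr ⟨fm p.2, hfm p.2⟩ p.1, ?_⟩
    rw [mulVecLin_apply]
    funext a
    rw [mulVec, dotProduct, Fintype.sum_prod_type, Finset.sum_comm]
    have e1 : ∀ c, ∑ r, E a (r, c) * (b.repr ⟨fm c, hfm c⟩ r) = (be (single c c 1) *ᵥ v) a := by
      intro c
      have e2 := congrArg (fun f : msp be => (f : Matrix α β F) a c)
        (b.sum_repr ⟨fm c, hfm c⟩)
      simp only [Submodule.coe_sum, Submodule.coe_smul, Matrix.sum_apply, Matrix.smul_apply,
        smul_eq_mul] at e2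
      have e3 : fm c a c = (be (single c c 1) *ᵥ v) a := rfl
      rw [← e3, ← e2]
      refine Finset.sum_congr rfl fun r _ => ?_
      rw [hEa, mul_comm]
    rw [Finset.sum_congr rfl fun c _ => e1 c]
    have e4 : ∑ c, be (single c c (1 : F)) = 1 := by
      rw [← map_sum, sum_single_one, h1]
    have e5 := congrArg (fun M : Matrix α α F => (M *ᵥ v) a) e4
    simp only [Matrix.sum_mulVec, Finset.sum_apply, one_mulVec] at e5
    exact e5
  let eE : ((Fin n × β) → F) ≃ₗ[F] (α → F) := LinearEquiv.ofBijective E.mulVecLin ⟨hinj, hsurj⟩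
  have hE1 : E * LinearMap.toMatrix' eE.symm.toLinearMap = 1 := by
    have h2 : LinearMap.toMatrix' (E.mulVecLin) = E := by
      rw [← Matrix.toLin'_apply']
      exact LinearMap.toMatrix'_toLin' E
    have h3 : (E.mulVecLin) ∘ₗ eE.symm.toLinearMap = LinearMap.id := by
      refine LinearMap.ext fun v => ?_
      exact eE.apply_symm_apply v
    have h4 := congrArg LinearMap.toMatrix' h3
    rw [LinearMap.toMatrix'_comp, LinearMap.toMatrix'_id, h2] at h4
    exact h4
  have hE2 : LinearMap.toMatrix' eE.symm.toLinearMap * E = 1 := by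
    have h2 : LinearMap.toMatrix' (E.mulVecLin) = E := by
      rw [← Matrix.toLin'_apply']
      exact LinearMap.toMatrix'_toLin' E
    have h3 : eE.symm.toLinearMap ∘ₗ (E.mulVecLin) = LinearMap.id := by
      refine LinearMap.ext fun v => ?_
      exact eE.symm_apply_apply v
    have h4 := congrArg LinearMap.toMatrix' h3
    rw [LinearMap.toMatrix'_comp, LinearMap.toMatrix'_id, h2] at h4
    exact h4
  refine ⟨n, U, E, LinearMap.toMatrix' eE.symm.toLinearMap, hE1, hE2, hVE, hbE, ?_⟩
  let j : (Fin n → F) →ₗ[F] Matrix α β F := (msp be).subtype ∘ₗ b.equivFun.symm.toLinearMap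
  have hj : ∀ x, j x = ∑ r, x r • (b r : Matrix α β F) := by
    intro x
    simp only [j, LinearMap.comp_apply, LinearEquiv.coe_coe, Module.Basis.equivFun_symm_apply,
      Submodule.subtype_apply, Submodule.coe_sum, Submodule.coe_smul]
  refine ⟨j, ?_, ?_⟩
  · exact (Submodule.injective_subtype _).comp b.equivFun.symm.injective
  · intro g x
    rw [hj, hj, Matrix.mul_sum, Matrix.sum_mul]
    have e1 : ∀ r, V g * (x r • (b r : Matrix α β F)) * W g⁻¹ =
        ∑ s, (x r * U g s r) • (b s : Matrix α β F) := by
      intro r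
      rw [Matrix.mul_smul, Matrix.smul_mul, hU', Finset.smul_sum]
      simp only [smul_smul]
    rw [Finset.sum_congr rfl fun r _ => e1 r, Finset.sum_comm]
    refine Finset.sum_congr rfl fun s _ => ?_
    rw [← Finset.sum_smul, mulVec, dotProduct]
    congr 1
    exact Finset.sum_congr rfl fun r _ => mul_comm _ _

end Pool.Agent.H66.TP
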